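import Mathlib
import Pool.Agent.Q18.RS.Rat
import Pool.Agent.TH949.TX.Rat2

/-! Singularities near the critical line for entire `L`-functions with real coefficients. -/

set_option autoImplicit false

open Complex MeasureTheory Set Filter Topology
open Pool.Agent.W189.TP (DS DS_diff DS_norm_le summ_mono PS LL LL_nonneg)
open Pool.Agent.TH949.RES (GF KK KK_nonneg gr_ne0)
open Pool.Agent.TH949.TX (AA main_sum hex_abs ub_entire conj_ext DS_conj)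

namespace Pool.Agent.Q18.LF

/-- polynomial growth, in the form of `ub_entire` -/
theorem growth_form {F : ℂ → ℂ} (hgr : ∀ a b : ℝ, 0 < a → ∃ C A : ℝ, ∀ s : ℂ, a ≤ s.re → s.re ≤ b →
    ‖F s‖ ≤ C * (1 + |s.im|) ^ A) {a : ℝ} (ha : 0 < a) (b : ℝ) : ∃ C A : ℝ, ∀ s : ℂ, a ≤ s.re → s.re ≤ b → 1 ≤ |s.im| →
      ‖F s‖ ≤ C * |s.im| ^ A ∧ 1 ≤ C * |s.im| ^ A := by
  obtain ⟨C, A, h⟩ := hgr a b ha
  refine ⟨max C 1 * 2 ^ max A 0, max A 0, fun s h1 h2 h3 => ?_⟩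
  have hA0 : 0 ≤ max A 0 := le_max_right _ _
  have hC1 : 1 ≤ max C 1 := le_max_right _ _
  have h4 : (1 : ℝ) ≤ |s.im| ^ max A 0 := Real.one_le_rpow h3 hA0
  have h5 : (1 : ℝ) ≤ 2 ^ max A 0 := Real.one_le_rpow (by norm_num) hA0
  have h6 : (1 + |s.im|) ^ A ≤ 2 ^ max A 0 * |s.im| ^ max A 0 := by
    rw [← Real.mul_rpow (by norm_num) (by linarith)]
    calc (1 + |s.im|) ^ A ≤ (1 + |s.im|) ^ max A 0 :=
          Real.rpow_le_rpow_of_exponent_le (by linarith) (le_max_left _ _)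
      _ ≤ _ := Real.rpow_le_rpow (by linarith) (by linarith) hA0
  constructor
  · calc ‖F s‖ ≤ C * (1 + |s.im|) ^ A := h s h1 h2
      _ ≤ max C 1 * (1 + |s.im|) ^ A := by gcongr; exact le_max_left _ _
      _ ≤ max C 1 * (2 ^ max A 0 * |s.im| ^ max A 0) := by gcongr
      _ = _ := by ring
  · calc (1 : ℝ) = 1 * 1 * 1 := by norm_num
      _ ≤ max C 1 * 2 ^ max A 0 * |s.im| ^ max A 0 := by gcongr

theorem order_ent {F : ℂ → ℂ} (hF : Differentiable ℂ F) (s : ℂ) :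
    0 ≤ meromorphicOrderAt F s ∧ (meromorphicOrderAt F s = 0 ↔ F s ≠ 0) := by
  have h1 : AnalyticAt ℂ F s := hF.analyticAt s
  refine ⟨h1.meromorphicOrderAt_nonneg, ?_⟩
  rw [h1.meromorphicOrderAt_eq]
  constructor
  · intro h2 h3
    have h4 : analyticOrderAt F s ≠ 0 := fun h5 => (h1.analyticOrderAt_eq_zero.1 h5) h3
    cases h6 : analyticOrderAt F s with
    | top => rw [h6] at h2; exact absurd h2 (by simp)
    | coe n =>
      rw [h6] at h2 h4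
      rw [ENat.map_natCast] at h2
      have h7 : (n : ℤ) = 0 := by exact_mod_cast h2
      apply h4
      have : n = 0 := by omega
      rw [this]
      rfl
  · intro h2
    rw [h1.analyticOrderAt_eq_zero.2 h2]
    rfl

theorem ent_meromorphic {F : ℂ → ℂ} (hF : Differentiable ℂ F) : MeromorphicOn F univ :=
  fun s _ => (hF.analyticAt s).meromorphicAt

/-- the identity between `F` and its completion -/
theorem ent_id {N : ℕ} {κ : Fin N → ℂ} {Q : ℝ} {F Ξ : ℂ → ℂ} (hF : Differentiable ℂ F) (hΞ : Differentiable ℂ Ξ)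
    (hid : ∀ s : ℂ, 1 < s.re → Ξ s = cexp (s * Real.log Q) * F s * ∏ j, Gammaℝ (s + κ j)) {s : ℂ}
    (hs : ∑ i, ‖κ i‖ < |s.im|) : Ξ s = F s * GF κ Q s := by
  have hle : ∀ i, ‖κ i‖ ≤ ∑ i, ‖κ i‖ := fun i =>
    Finset.single_le_sum (f := fun i => ‖κ i‖) (fun _ _ => norm_nonneg _) (Finset.mem_univ i)
  have hnn : 0 ≤ ∑ i, ‖κ i‖ := Finset.sum_nonneg fun _ _ => norm_nonneg _
  have hne1 : ∀ z : ℂ, ∑ i, ‖κ i‖ < |z.im| → ∀ j, Gammaℝ (z + κ j) ≠ 0 := by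
    intro z hz j
    refine gr_ne0 ?_
    rw [Complex.add_im]
    intro h0
    have a1 := Complex.abs_im_le_norm (κ j)
    have a3 := hle j
    have a5 : z.im = -(κ j).im := by linarith
    rw [a5, abs_neg] at hz
    linarith
  have hP : Differentiable ℂ fun s : ℂ => cexp (-(s * Real.log Q)) * ∏ j, (Gammaℝ (s + κ j))⁻¹ := by
    refine Differentiable.mul (by fun_prop) (Differentiable.fun_finsetProd fun j _ => ?_)
    exact differentiable_Gammaℝ_inv.comp (differentiable_id.add_const _)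
  have h1 : AnalyticOnNhd ℂ F Set.univ := hF.differentiableOn.analyticOnNhd isOpen_univ
  have h2 : AnalyticOnNhd ℂ (fun s => Ξ s * (cexp (-(s * Real.log Q)) * ∏ j, (Gammaℝ (s + κ j))⁻¹)) Set.univ :=
    (hΞ.mul hP).differentiableOn.analyticOnNhd isOpen_univ
  have h3 : F =ᶠ[𝓝 (((2 + ∑ i, ‖κ i‖ : ℝ)) : ℂ)]
      fun s => Ξ s * (cexp (-(s * Real.log Q)) * ∏ j, (Gammaℝ (s + κ j))⁻¹) := by
    filter_upwards [(isOpen_lt continuous_const Complex.continuous_re).mem_nhds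
      (show 1 + ∑ i, ‖κ i‖ < (((2 + ∑ i, ‖κ i‖ : ℝ)) : ℂ).re by simp)] with s hs
    have hs' : 1 + ∑ i, ‖κ i‖ < s.re := hs
    rw [hid s (by linarith)]
    have hne : ∀ j, Gammaℝ (s + κ j) ≠ 0 := by
      intro j
      refine Gammaℝ_ne_zero_of_re_pos ?_
      rw [Complex.add_re]
      have a1 := (abs_le.1 (Complex.abs_re_le_norm (κ j))).1
      have a3 := hle j
      linarith
    have e : (∏ j, Gammaℝ (s + κ j)) * ∏ j, (Gammaℝ (s + κ j))⁻¹ = 1 := by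
      rw [← Finset.prod_mul_distrib]
      exact Finset.prod_eq_one fun j _ => mul_inv_cancel₀ (hne j)
    have e3 : cexp (s * Real.log Q) * cexp (-(s * Real.log Q)) = 1 := by
      rw [← Complex.exp_add]
      simp
    linear_combination (-(F s)) * (e3 * ((∏ j, Gammaℝ (s + κ j)) * ∏ j, (Gammaℝ (s + κ j))⁻¹) + e)
  have h4 := h1.eqOn_of_preconnected_of_eventuallyEq h2 isPreconnected_univ (Set.mem_univ _) h3 (Set.mem_univ s)
  simp only at h4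
  have e : (∏ j, (Gammaℝ (s + κ j))⁻¹) * ∏ j, Gammaℝ (s + κ j) = 1 := by
    rw [← Finset.prod_mul_distrib]
    exact Finset.prod_eq_one fun j _ => inv_mul_cancel₀ (hne1 s hs j)
  have e3 : cexp (-(s * Real.log Q)) * cexp (s * Real.log Q) = 1 := by
    rw [← Complex.exp_add]
    simp
  rw [h4]
  unfold GF
  linear_combination (-(Ξ s)) * (e3 * ((∏ j, (Gammaℝ (s + κ j))⁻¹) * ∏ j, Gammaℝ (s + κ j)) + e)

/-- **zeros near the critical line** -/
theorem ent_hex {ι : Type*} [Countable ι] {d L : ι → ℝ} (hL : ∀ i, 0 ≤ L i)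
    (habs : ∀ t : ℝ, 1 < t → Summable fun i => |d i| * Real.exp (-(t * L i)))
    {F Ξ : ℂ → ℂ} (hF : Differentiable ℂ F) (hE : ∀ s : ℂ, 1 < s.re → F s = cexp (DS d L s))
    (hgr : ∀ a b : ℝ, 0 < a → ∃ C A : ℝ, ∀ s : ℂ, a ≤ s.re → s.re ≤ b → ‖F s‖ ≤ C * (1 + |s.im|) ^ A)
    {N : ℕ} (hN : 1 ≤ N) {κ : Fin N → ℂ}
    (hκ : Multiset.map (fun j => (starRingEnd ℂ) (κ j)) Finset.univ.val = Multiset.map κ Finset.univ.val)
    {Q : ℝ} {ω : ℂ} (hω : ω ≠ 0) (hΞ : Differentiable ℂ Ξ)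
    (hid : ∀ s : ℂ, 1 < s.re → Ξ s = cexp (s * Real.log Q) * F s * ∏ j, Gammaℝ (s + κ j))
    (hfe : ∀ s : ℂ, Ξ (1 - s) = ω * Ξ s) :
    ∀ δ : ℝ, 0 < δ → ∃ ρ : ℂ, 1 / 2 - δ < ρ.re ∧ ρ.im ≠ 0 ∧ meromorphicOrderAt F ρ ≠ 0 := by
  have hconj : ∀ s : ℂ, F ((starRingEnd ℂ) s) = (starRingEnd ℂ) (F s) := by
    refine conj_ext hF fun s hs => ?_
    rw [hE s hs, hE _ (by simpa using hs), DS_conj, ← Complex.exp_conj]
  refine hex_abs hL habs hE hN hκ (Q := Q) (T := 0) le_rfl (inv_ne_zero hω)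
    (fun s _ _ h0 => ⟨hF s, (order_ent hF s).2.1 h0⟩) (fun c0 hc0 hc1 hreg R hR hRc => ?_) (fun a ha ha2 => ?_)
  · obtain ⟨C, A, hCA⟩ := growth_form hgr (a := c0) (by linarith) 4
    refine ub_entire hL habs (by linarith) hreg hE (G := F) (V := fun _ => 1) (fun s _ _ => by rw [one_mul]) hF
      (differentiable_const _) (C := C) (A := A) (fun s h1 h2 h3 => ?_) one_pos (fun t _ => by simp) hR hRc
    have := hCA s h1.le h2 h3
    refine ⟨this.1, ?_⟩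
    rw [norm_one]
    exact this.2
  · refine ⟨(a + 1 / 2) / 2, 1, 1, by linarith, by linarith, one_pos, one_pos, ?_⟩
    refine Eventually.frequently ?_
    filter_upwards [eventually_gt_atTop (∑ i, ‖κ i‖), eventually_gt_atTop 0] with t ht ht0
    set s : ℂ := (((a + 1 / 2) / 2 : ℝ) : ℂ) + t * I with hs
    have him : |s.im| = t := by rw [hs]; simp [abs_of_pos ht0]
    have him' : |(1 - s).im| = t := by rw [hs]; simp [abs_of_pos ht0]
    have h1 := ent_id hF hΞ hid (s := s) (by rw [him]; exact ht)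
    have h2 := ent_id hF hΞ hid (s := 1 - s) (by rw [him']; exact ht)
    have h3 := hfe s
    rw [h1, h2] at h3
    refine ⟨1, 1, by simp, by simp, ?_, ?_⟩
    · rw [mul_one, mul_one, h3, inv_mul_cancel_left₀ hω]
    · have e3 : ((1 - (a + 1 / 2) / 2 : ℝ) : ℂ) + t * I = (starRingEnd ℂ) (1 - s) := by
        rw [hs]
        simp only [map_add, map_sub, map_one, map_mul, Complex.conj_I, Complex.conj_ofReal]
        push_cast
        ring
      rw [e3, hconj, RCLike.norm_conj]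

/-- **The criterion, in terms of the logarithm.** If the singularities of `F` are as in the hypotheses of `ent_hex`,
then one-sided bounds on windows give zero-free half-planes. -/
theorem ent_neg {ι : Type*} [Countable ι] {d L : ι → ℝ} (hL : ∀ i, 0 ≤ L i)
    (habs : ∀ t : ℝ, 1 < t → Summable fun i => |d i| * Real.exp (-(t * L i)))
    {F : ℂ → ℂ} (hF : Differentiable ℂ F) (hE : ∀ s : ℂ, 1 < s.re → F s = cexp (DS d L s))
    (hex : ∀ δ : ℝ, 0 < δ → ∃ ρ : ℂ, 1 / 2 - δ < ρ.re ∧ ρ.im ≠ 0 ∧ meromorphicOrderAt F ρ ≠ 0) {c : ℝ}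
    (hc : c < 1 / 2 ∨ ∃ ρ : ℂ, c < ρ.re ∧ F ρ = 0) :
    ∃ a : ℝ, c < a ∧ 0 < a ∧ ∀ lam : ℝ, 0 < lam → lam ≤ 1 → ∀ᶠ Y : ℝ in atTop, ∃ u : ℝ, |u - Y| ≤ lam * Y ∧
      Real.exp (a * u) ≤ AA (fun i => -d i) L u := by
  refine Pool.Agent.Q18.RS.sum_neg hL habs (ent_meromorphic hF) hE (fun x _ => (order_ent hF x).1) hex ?_
  refine hc.imp id ?_
  rintro ⟨ρ, h1, h2⟩
  exact ⟨ρ, h1, fun h3 => (order_ent hF ρ).2.1 h3 h2⟩

theorem ent_pos {ι : Type*} [Countable ι] {d L : ι → ℝ} (hL : ∀ i, 0 ≤ L i)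
    (habs : ∀ t : ℝ, 1 < t → Summable fun i => |d i| * Real.exp (-(t * L i)))
    {F : ℂ → ℂ} (hF : Differentiable ℂ F) (hE : ∀ s : ℂ, 1 < s.re → F s = cexp (DS d L s))
    (hex : ∀ δ : ℝ, 0 < δ → ∃ ρ : ℂ, 1 / 2 - δ < ρ.re ∧ ρ.im ≠ 0 ∧ meromorphicOrderAt F ρ ≠ 0) {c : ℝ}
    (hreal : ∀ x : ℝ, c < x → F (x : ℂ) ≠ 0)
    (hc : c < 1 / 2 ∨ ∃ ρ : ℂ, c < ρ.re ∧ F ρ = 0) :
    ∃ a : ℝ, c < a ∧ 0 < a ∧ ∀ lam : ℝ, 0 < lam → lam ≤ 1 → ∀ᶠ Y : ℝ in atTop, ∃ u : ℝ, |u - Y| ≤ lam * Y ∧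
      Real.exp (a * u) ≤ AA d L u := by
  refine Pool.Agent.Q18.RS.sum_pos' hL habs (ent_meromorphic hF) hE hex
    (fun x hx => (((order_ent hF x).2.2 (hreal x hx)).le)) ?_
  refine hc.imp id ?_
  rintro ⟨ρ, h1, h2⟩
  exact ⟨ρ, h1, fun h3 => (order_ent hF ρ).2.1 h3 h2⟩

end Pool.Agent.Q18.LF
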