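import Mathlib
import Pool.Agent.Q18.LF.Ent

/-! One-sided criteria for the zeros of automorphic `L`-functions. -/

set_option autoImplicit false

open Complex MeasureTheory Set Filter Topology
open Pool.Agent.W189.TP (DS DS_diff DS_norm_le summ_mono PS LL LL_nonneg exp_LL rexp_LL)
open Pool.Agent.TH949.RES (GF pe rs Q_cpow)
open Pool.Agent.TH949.TX (AA main_sum LL_fin LL_le)

namespace Pool.Agent.Q18.LF

/-- The data of the standard `L`-function of a cuspidal automorphic representation `π` of `GL_m` over `ℚ` (unitary,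
not the trivial representation of `GL_1`): conductor `N`, archimedean parameters `μ j`, local parameters `α p j` (some
may be zero at the ramified primes), root number `ε`, `L(s) = L(s, π)` and `Λ(s) = N^{s/2} L(s, π_∞) L(s, π)`.
All these properties are known (Godement-Jacquet, Jacquet-Shalika). -/
structure StandardL {m : ℕ} (N : ℝ) (μ : Fin m → ℂ) (α : Nat.Primes → Fin m → ℂ) (ε : ℂ) (L Λ : ℂ → ℂ) : Prop where
  /-- the degree is positive -/
  degree : 1 ≤ m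
  /-- the conductor is positive -/
  conductor : 0 < N
  /-- the Euler product converges absolutely for `Re s > 1` -/
  summable : ∀ σ : ℝ, 1 < σ → Summable fun x : Nat.Primes × ℕ =>
    ‖∑ j, α x.1 j ^ (x.2 + 1)‖ / ((x.2 : ℝ) + 1) * (((x.1 : ℕ) : ℝ) ^ (-σ)) ^ (x.2 + 1)
  /-- `L(s, π)` is entire -/
  entire : Differentiable ℂ L
  /-- `log L(s, π) = ∑_p ∑_{k ≥ 1} (∑_j α_j(p)^k) / (k p^{ks})` -/
  euler : ∀ s : ℂ, 1 < s.re → L s = cexp (∑' x : Nat.Primes × ℕ,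
    (∑ j, α x.1 j ^ (x.2 + 1)) / ((x.2 : ℂ) + 1) * (((x.1 : ℕ) : ℂ) ^ (-s)) ^ (x.2 + 1))
  /-- polynomial growth in vertical strips -/
  growth : ∀ a b : ℝ, 0 < a → ∃ C A : ℝ, ∀ s : ℂ, a ≤ s.re → s.re ≤ b → ‖L s‖ ≤ C * (1 + |s.im|) ^ A
  /-- the completed function -/
  completed : Differentiable ℂ Λ
  completed_eq : ∀ s : ℂ, 1 < s.re → Λ s = (N : ℂ) ^ (s / 2) * (∏ j, Gammaℝ (s - μ j)) * L s
  /-- the root number -/
  root : ‖ε‖ = 1
  /-- the functional equation, `Λ(s, π~) = conj Λ(conj s, π)` -/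
  functional : ∀ s : ℂ, Λ (1 - s) = ε * (starRingEnd ℂ) (Λ ((starRingEnd ℂ) s))

variable {m : ℕ} {N : ℝ} {μ : Fin m → ℂ} {α : Nat.Primes → Fin m → ℂ} {ε : ℂ} {L Λ : ℂ → ℂ}

open scoped Classical in
/-- `∑_{p^k ≤ x} Re (∑_j α_j(p)^k) / k` -/
noncomputable def psum (α : Nat.Primes → Fin m → ℂ) (x : ℝ) : ℝ :=
  ∑' y : Nat.Primes × ℕ, if ((y.1 : ℕ) : ℝ) ^ (y.2 + 1) ≤ x then (∑ j, α y.1 j ^ (y.2 + 1)).re / ((y.2 : ℝ) + 1) else 0

/-- the coefficients of `log (L(s, π) L(s, π~))` -/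
noncomputable def dr (α : Nat.Primes → Fin m → ℂ) (x : PS ∅ × ℕ) : ℝ :=
  2 * ((∑ j, rs α x.1 j ^ (x.2 + 1)).re / ((x.2 : ℝ) + 1))

/-- `L(s, π) L(s, π~)` -/
noncomputable def FF (L : ℂ → ℂ) (s : ℂ) : ℂ := L s * (starRingEnd ℂ) (L ((starRingEnd ℂ) s))

theorem conj_diff {f : ℂ → ℂ} (hf : Differentiable ℂ f) :
    Differentiable ℂ fun s => (starRingEnd ℂ) (f ((starRingEnd ℂ) s)) := fun s => by
  have h1 : DifferentiableAt ℂ f ((starRingEnd ℂ) s) := hf _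
  have h2 := h1.conj_conj
  rw [Complex.conj_conj] at h2
  exact h2

theorem dr_summable (h : StandardL N μ α ε L Λ) {t : ℝ} (ht : 1 < t) :
    Summable fun x : PS ∅ × ℕ => |dr α x| * Real.exp (-(t * LL x)) := by
  have h1 := ((pe.summable_iff).2 (h.summable t ht)).mul_left 2
  refine Summable.of_nonneg_of_le (fun x => by positivity) (fun x => ?_) h1
  rw [rexp_LL]
  unfold dr
  simp only [Function.comp]
  rw [abs_mul, abs_div, abs_of_pos (show (0 : ℝ) < 2 by norm_num),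
    abs_of_pos (show (0 : ℝ) < (x.2 : ℝ) + 1 by positivity), mul_assoc]
  have h2 : |(∑ j, rs α x.1 j ^ (x.2 + 1)).re| ≤ ‖∑ j, rs α x.1 j ^ (x.2 + 1)‖ := Complex.abs_re_le_norm _
  have h3 : ‖∑ j, rs α x.1 j ^ (x.2 + 1)‖ = ‖∑ j, α (pe x).1 j ^ ((pe x).2 + 1)‖ := rfl
  have h4 : (pe x).2 = x.2 := rfl
  have h5 : (((pe x).1 : ℕ) : ℝ) = ((x.1.1 : ℕ) : ℝ) := rfl
  rw [← h3, h4, h5]
  gcongr

theorem FF_eq (h : StandardL N μ α ε L Λ) {s : ℂ} (hs : 1 < s.re) : FF L s = cexp (DS (dr α) LL s) := by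
  have hsum : ∀ s : ℂ, 1 < s.re → Summable fun x : Nat.Primes × ℕ =>
      (∑ j, α x.1 j ^ (x.2 + 1)) / ((x.2 : ℂ) + 1) * (((x.1 : ℕ) : ℂ) ^ (-s)) ^ (x.2 + 1) := by
    intro s hs
    refine Summable.of_norm ((h.summable s.re hs).congr fun x => ?_)
    have e1 : ‖((x.2 : ℂ) + 1)‖ = (x.2 : ℝ) + 1 := by
      have : ((x.2 : ℂ) + 1) = ((x.2 + 1 : ℕ) : ℂ) := by push_cast; rfl
      rw [this, Complex.norm_natCast]
      push_cast
      rfl
    rw [norm_mul, norm_div, norm_pow, e1, Complex.norm_natCast_cpow_of_pos x.1.2.pos, Complex.neg_re]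
  have hs' : 1 < ((starRingEnd ℂ) s).re := by simpa using hs
  unfold FF
  rw [h.euler s hs, h.euler _ hs', ← Complex.exp_conj, Complex.conj_tsum, ← Complex.exp_add]
  congr 1
  have h2 : Summable fun x : Nat.Primes × ℕ => (starRingEnd ℂ) ((∑ j, α x.1 j ^ (x.2 + 1)) / ((x.2 : ℂ) + 1) *
      (((x.1 : ℕ) : ℂ) ^ (-(starRingEnd ℂ) s)) ^ (x.2 + 1)) := by
    exact (hsum _ hs').map (starRingEnd ℂ) Complex.continuous_conj
  rw [← (hsum s hs).tsum_add h2]
  unfold DS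
  rw [← pe.tsum_eq]
  refine tsum_congr fun x => ?_
  have e4 : (pe x).2 = x.2 := rfl
  have e5 : (pe x).1 = x.1.1 := rfl
  have e6 : (starRingEnd ℂ) (((x.1.1 : ℕ) : ℂ) ^ (-(starRingEnd ℂ) s)) = ((x.1.1 : ℕ) : ℂ) ^ (-s) := by
    have hp : ((x.1.1 : ℕ) : ℂ) ≠ 0 := by exact_mod_cast x.1.1.2.ne_zero
    rw [Complex.cpow_def_of_ne_zero hp, Complex.cpow_def_of_ne_zero hp, ← Complex.exp_conj, map_mul, map_neg,
      Complex.conj_conj, ← Complex.natCast_log, Complex.conj_ofReal]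
  rw [e4, e5, exp_LL, map_mul, map_div₀, map_pow, e6, map_add, map_one, Complex.conj_natCast]
  have hk : ((x.2 : ℂ) + 1) ≠ 0 := Nat.cast_add_one_ne_zero _
  have e7 : (∑ j, α x.1.1 j ^ (x.2 + 1)) + (starRingEnd ℂ) (∑ j, α x.1.1 j ^ (x.2 + 1)) =
      ((2 * (∑ j, α x.1.1 j ^ (x.2 + 1)).re : ℝ) : ℂ) := Complex.add_conj _
  have e8 : dr α x = 2 * (∑ j, α x.1.1 j ^ (x.2 + 1)).re / ((x.2 : ℝ) + 1) := by
    unfold dr rs
    ring
  rw [e8, Complex.ofReal_div, ← e7]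
  push_cast
  ring

theorem FF_diff (h : StandardL N μ α ε L Λ) : Differentiable ℂ (FF L) := h.entire.mul (conj_diff h.entire)

theorem FF_growth (h : StandardL N μ α ε L Λ) (a b : ℝ) (ha : 0 < a) : ∃ C A : ℝ, ∀ s : ℂ, a ≤ s.re → s.re ≤ b →
    ‖FF L s‖ ≤ C * (1 + |s.im|) ^ A := by
  obtain ⟨C, A, hC⟩ := h.growth a b ha
  refine ⟨C * C, A + A, fun s h1 h2 => ?_⟩
  have h3 := hC s h1 h2
  have h4 := hC ((starRingEnd ℂ) s) (by simpa using h1) (by simpa using h2)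
  rw [Complex.conj_im, abs_neg] at h4
  unfold FF
  rw [norm_mul, RCLike.norm_conj, Real.rpow_add (by positivity)]
  calc ‖L s‖ * ‖L ((starRingEnd ℂ) s)‖ ≤ (C * (1 + |s.im|) ^ A) * (C * (1 + |s.im|) ^ A) :=
        mul_le_mul h3 h4 (norm_nonneg _) ((norm_nonneg _).trans h3)
    _ = _ := by ring

/-- the Gamma parameters of `L(s, π) L(s, π~)` -/
noncomputable def kap (μ : Fin m → ℂ) : Fin (m + m) → ℂ :=
  Fin.append (fun j => -μ j) (fun j => -(starRingEnd ℂ) (μ j))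

theorem kap_conj (μ : Fin m → ℂ) : Multiset.map (fun j => (starRingEnd ℂ) (kap μ j)) Finset.univ.val =
    Multiset.map (kap μ) Finset.univ.val := by
  have h4 : (fun x => (starRingEnd ℂ) (kap μ x)) = kap μ ∘ (finAddFlip : Fin (m + m) ≃ Fin (m + m)) := by
    funext x
    simp only [Function.comp]
    unfold kap
    refine Fin.addCases (fun i => ?_) (fun i => ?_) x
    · rw [Fin.append_left, finAddFlip_apply_castAdd, Fin.append_right, map_neg]
    · rw [Fin.append_right, finAddFlip_apply_natAdd, Fin.append_left, map_neg, Complex.conj_conj]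
  rw [h4, ← Multiset.map_map, Multiset.map_univ_val_equiv]

theorem conj_Gammaℝ (s : ℂ) : (starRingEnd ℂ) (Gammaℝ s) = Gammaℝ ((starRingEnd ℂ) s) := by
  have hπ : (Real.pi : ℂ) ≠ 0 := by exact_mod_cast Real.pi_ne_zero
  rw [Complex.Gammaℝ_def, Complex.Gammaℝ_def, map_mul, ← Complex.Gamma_conj, map_div₀,
    Complex.cpow_def_of_ne_zero hπ, Complex.cpow_def_of_ne_zero hπ, ← Complex.exp_conj, map_mul,
    ← Complex.ofReal_log Real.pi_pos.le, Complex.conj_ofReal, map_div₀, map_neg, map_ofNat]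

theorem XX_eq (h : StandardL N μ α ε L Λ) {s : ℂ} (hs : 1 < s.re) :
    FF Λ s = cexp (s * Real.log N) * FF L s * ∏ j, Gammaℝ (s + kap μ j) := by
  have hs' : 1 < ((starRingEnd ℂ) s).re := by simpa using hs
  unfold FF
  rw [h.completed_eq s hs, h.completed_eq _ hs', Q_cpow h.conductor, Q_cpow h.conductor, Fin.prod_univ_add,
    map_mul, map_mul, map_prod, ← Complex.exp_conj, map_mul, Complex.conj_ofReal, map_div₀, Complex.conj_conj]
  have e1 : ∀ j, (starRingEnd ℂ) (Gammaℝ ((starRingEnd ℂ) s - μ j)) = Gammaℝ (s - (starRingEnd ℂ) (μ j)) := by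
    intro j
    rw [conj_Gammaℝ, map_sub, Complex.conj_conj]
  have e2 : (starRingEnd ℂ) 2 = (2 : ℂ) := map_ofNat _ 2
  have e3 : cexp (s * Real.log N) = cexp (s / 2 * Real.log N) * cexp (s / 2 * Real.log N) := by
    rw [← Complex.exp_add]
    congr 1
    ring
  simp only [e1, e2]
  unfold kap
  simp only [Fin.append_left, Fin.append_right, ← sub_eq_add_neg]
  rw [e3]
  ring

theorem XX_fe (h : StandardL N μ α ε L Λ) (s : ℂ) : FF Λ (1 - s) = 1 * FF Λ s := by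
  unfold FF
  have h1 := h.functional s
  have h2 := h.functional ((starRingEnd ℂ) s)
  have h3 : (starRingEnd ℂ) (1 - s) = 1 - (starRingEnd ℂ) s := by simp
  rw [h3, h1, h2, Complex.conj_conj, map_mul, Complex.conj_conj]
  have h4 : ε * (starRingEnd ℂ) ε = 1 := by
    rw [Complex.mul_conj, Complex.normSq_eq_norm_sq, h.root]
    norm_num
  linear_combination ((starRingEnd ℂ) (Λ ((starRingEnd ℂ) s)) * Λ s) * h4

theorem aut_hex (h : StandardL N μ α ε L Λ) : ∀ δ : ℝ, 0 < δ → ∃ ρ : ℂ, 1 / 2 - δ < ρ.re ∧ ρ.im ≠ 0 ∧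
    meromorphicOrderAt (FF L) ρ ≠ 0 := by
  have hd := h.degree
  exact ent_hex LL_nonneg (fun t ht => dr_summable h ht) (FF_diff h) (fun s hs => FF_eq h hs) (FF_growth h)
    (by omega) (kap_conj μ) one_ne_zero (h.completed.mul (conj_diff h.completed)) (fun s hs => XX_eq h hs) (XX_fe h)

theorem FF_zero (s : ℂ) : FF L s = 0 ↔ L s = 0 ∨ L ((starRingEnd ℂ) s) = 0 := by
  unfold FF
  rw [mul_eq_zero, map_eq_zero]

theorem AA_dr (α : Nat.Primes → Fin m → ℂ) {x : ℝ} (hx : 0 < x) : AA (dr α) LL (Real.log x) = 2 * psum α x := by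
  unfold AA psum
  rw [← tsum_mul_left, ← pe.tsum_eq]
  refine tsum_congr fun y => ?_
  have e4 : (pe y).2 = y.2 := rfl
  have e5 : (pe y).1 = y.1.1 := rfl
  simp only [LL_le hx, e4, e5]
  split_ifs
  · rfl
  · simp

theorem AA_dr_neg (α : Nat.Primes → Fin m → ℂ) {x : ℝ} (hx : 0 < x) :
    AA (fun y => -dr α y) LL (Real.log x) = -(2 * psum α x) := by
  rw [← AA_dr α hx]
  unfold AA
  rw [← tsum_neg]
  refine tsum_congr fun y => ?_
  split_ifs
  · rfl
  · simp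

theorem half_pow {a c : ℝ} (hca : c < a) : ∀ᶠ x : ℝ in atTop, 2 * x ^ c ≤ x ^ a := by
  filter_upwards [(tendsto_rpow_atTop (sub_pos.2 hca)).eventually_ge_atTop 2, eventually_gt_atTop 0] with x hx hx0
  have e1 : x ^ a = x ^ (a - c) * x ^ c := by
    rw [← Real.rpow_add hx0]
    congr 1
    ring
  rw [e1]
  gcongr

/-- negative values at every scale -/
theorem aut_neg (h : StandardL N μ α ε L Λ) {c δ : ℝ} (hδ : 0 < δ)
    (hc : c < 1 / 2 ∨ ∃ ρ : ℂ, c < ρ.re ∧ L ρ = 0) :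
    ∀ᶠ X : ℝ in atTop, ∃ x : ℝ, X ^ (1 - δ) ≤ x ∧ x ≤ X ∧ psum α x ≤ -x ^ c := by
  obtain ⟨a, h1, h2, h3⟩ := ent_neg (c := c) LL_nonneg (fun t ht => dr_summable h ht) (FF_diff h)
    (fun s hs => FF_eq h hs) (aut_hex h) (hc.imp id fun ⟨ρ, h1, h2⟩ => ⟨ρ, h1, (FF_zero ρ).2 (Or.inl h2)⟩)
  filter_upwards [Pool.Agent.Q18.RS.to_window h3 hδ ((half_pow h1).and (eventually_gt_atTop 0))] with X hX
  obtain ⟨x, h4, h5, ⟨h6, h7⟩, h8⟩ := hX
  refine ⟨x, h4, h5, ?_⟩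
  rw [AA_dr_neg α h7] at h8
  linarith

/-- positive values at every scale -/
theorem aut_pos (h : StandardL N μ α ε L Λ) {c δ : ℝ} (hδ : 0 < δ) (hreal : ∀ β : ℝ, c < β → L (β : ℂ) ≠ 0)
    (hc : c < 1 / 2 ∨ ∃ ρ : ℂ, c < ρ.re ∧ L ρ = 0) :
    ∀ᶠ X : ℝ in atTop, ∃ x : ℝ, X ^ (1 - δ) ≤ x ∧ x ≤ X ∧ x ^ c ≤ psum α x := by
  obtain ⟨a, h1, h2, h3⟩ := ent_pos (c := c) LL_nonneg (fun t ht => dr_summable h ht) (FF_diff h)
    (fun s hs => FF_eq h hs) (aut_hex h) (fun x hx h0 => by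
      rcases (FF_zero _).1 h0 with h1 | h1
      · exact hreal x hx h1
      · rw [Complex.conj_ofReal] at h1
        exact hreal x hx h1) (hc.imp id fun ⟨ρ, h1, h2⟩ => ⟨ρ, h1, (FF_zero ρ).2 (Or.inl h2)⟩)
  filter_upwards [Pool.Agent.Q18.RS.to_window h3 hδ ((half_pow h1).and (eventually_gt_atTop 0))] with X hX
  obtain ⟨x, h4, h5, ⟨h6, h7⟩, h8⟩ := hX
  refine ⟨x, h4, h5, ?_⟩
  rw [AA_dr α h7] at h8
  linarith

/-- the completed function vanishes only where `L` does -/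
theorem lam_zero (h : StandardL N μ α ε L Λ) {s : ℂ} (hs : Λ s = 0) : L s = 0 := by
  have hP : Differentiable ℂ fun s : ℂ => ∏ j, (Gammaℝ (s - μ j))⁻¹ := by
    refine Differentiable.fun_finsetProd fun j _ => ?_
    exact differentiable_Gammaℝ_inv.comp (differentiable_id.sub_const _)
  have hQ : Differentiable ℂ fun s : ℂ => cexp (s / 2 * Real.log N) * L s :=
    Differentiable.mul (by fun_prop) h.entire
  have h1 : AnalyticOnNhd ℂ (fun s => Λ s * ∏ j, (Gammaℝ (s - μ j))⁻¹) Set.univ :=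
    (h.completed.mul hP).differentiableOn.analyticOnNhd isOpen_univ
  have h2 : AnalyticOnNhd ℂ (fun s => cexp (s / 2 * Real.log N) * L s) Set.univ :=
    hQ.differentiableOn.analyticOnNhd isOpen_univ
  have hle : ∀ i, ‖μ i‖ ≤ ∑ i, ‖μ i‖ := fun i =>
    Finset.single_le_sum (f := fun i => ‖μ i‖) (fun _ _ => norm_nonneg _) (Finset.mem_univ i)
  have hnn : 0 ≤ ∑ i, ‖μ i‖ := Finset.sum_nonneg fun _ _ => norm_nonneg _
  have h3 : (fun s => Λ s * ∏ j, (Gammaℝ (s - μ j))⁻¹) =ᶠ[𝓝 (((2 + ∑ i, ‖μ i‖ : ℝ)) : ℂ)]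
      fun s => cexp (s / 2 * Real.log N) * L s := by
    filter_upwards [(isOpen_lt continuous_const Complex.continuous_re).mem_nhds
      (show 1 + ∑ i, ‖μ i‖ < (((2 + ∑ i, ‖μ i‖ : ℝ)) : ℂ).re by simp)] with s hs
    have hs' : 1 + ∑ i, ‖μ i‖ < s.re := hs
    rw [h.completed_eq s (by linarith), Q_cpow h.conductor]
    have hne : ∀ j, Gammaℝ (s - μ j) ≠ 0 := by
      intro j
      refine Gammaℝ_ne_zero_of_re_pos ?_
      rw [Complex.sub_re]
      have a1 := (abs_le.1 (Complex.abs_re_le_norm (μ j))).2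
      have a3 := hle j
      linarith
    have e : (∏ j, Gammaℝ (s - μ j)) * ∏ j, (Gammaℝ (s - μ j))⁻¹ = 1 := by
      rw [← Finset.prod_mul_distrib]
      exact Finset.prod_eq_one fun j _ => mul_inv_cancel₀ (hne j)
    linear_combination (cexp (s / 2 * Real.log N) * L s) * e
  have h4 := h1.eqOn_of_preconnected_of_eventuallyEq h2 isPreconnected_univ (Set.mem_univ _) h3 (Set.mem_univ s)
  simp only at h4
  rw [hs, zero_mul] at h4
  rcases mul_eq_zero.1 h4.symm with h5 | h5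
  · exact absurd h5 (Complex.exp_ne_zero _)
  · exact h5

/-- the Riemann hypothesis from zero-free half-planes -/
theorem grh_of (h : StandardL N μ α ε L Λ) (hz : ∀ s : ℂ, 1 / 2 < s.re → L s ≠ 0) {s : ℂ} (hs : Λ s = 0) :
    s.re = 1 / 2 := by
  rcases lt_trichotomy s.re (1 / 2) with h1 | h1 | h1
  · exfalso
    have h2 := h.functional ((starRingEnd ℂ) s)
    rw [Complex.conj_conj, hs, map_zero, mul_zero] at h2
    refine hz _ ?_ (lam_zero h h2)
    rw [Complex.sub_re, Complex.one_re, Complex.conj_re]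
    linarith
  · exact h1
  · exact absurd (lam_zero h hs) (hz s h1)

end Pool.Agent.Q18.LF
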