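import Mathlib
import Pool.Agent.TH949.TX.SMain

/-! The summatory function takes large absolute values at every scale, with no hypothesis on the real line. -/

set_option autoImplicit false

open Complex MeasureTheory Set Filter Topology
open Pool.Agent.W189.TP (DS DS_diff DS_norm_le summ_mono)
open Pool.Agent.TH949.TX

namespace Pool.Agent.Q18.LF

theorem AA_neg' {ι : Type*} (d L : ι → ℝ) (u : ℝ) : AA (fun i => -d i) L u = -AA d L u := by
  unfold AA
  rw [← tsum_neg]
  refine tsum_congr fun y => ?_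
  split_ifs
  · rfl
  · simp

theorem JA_neg' {ι : Type*} (d L : ι → ℝ) (s : ℂ) (κ Y : ℝ) : JA (fun i => -d i) L s κ Y = -JA d L s κ Y := by
  unfold JA
  rw [← integral_neg]
  congr 1
  funext u
  rw [AA_neg']
  push_cast
  ring

/-- an upper bound for the Gaussian average of the summatory function -/
theorem JA_le {ι : Type*} [Countable ι] {d L : ι → ℝ} (hL : ∀ i, 0 ≤ L i)
    (h2 : Summable fun i => |d i| * Real.exp (-(2 * L i))) {lam η σ Y c : ℝ} (hlam : 0 < lam) (hlam1 : lam ≤ 1)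
    (hη : η = lam ^ 2 / 100) (hσ : 0 ≤ σ) (hY : 1 ≤ Y) (hY1 : 1 ≤ 4 * Real.pi * (η * Y)) (hc : c ≤ σ)
    (h : ∀ u : ℝ, |u - Y| ≤ lam * Y → AA d L u ≤ Real.exp (c * u)) :
    (JA d L (σ : ℂ) (η * Y) Y).re ≤ 1 + (∑' i, |d i| * Real.exp (-(2 * L i))) / 2 := by
  classical
  obtain ⟨hAm, hA0, hAb⟩ := t_AA hL h2
  set B : ℝ := ∑' i, |d i| * Real.exp (-(2 * L i)) with hB
  have hB0 : 0 ≤ B := tsum_nonneg fun i => by positivity
  have hη0 : 0 < η := by rw [hη]; positivity
  have hY0 : 0 < Y := by linarith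
  have hκ : 0 < η * Y := by positivity
  set w : ℝ → ℝ := fun u => Real.exp (-(σ * u)) * gk (η * Y) (u - Y) with hw
  have hw0 : ∀ u, 0 ≤ w u := fun u => mul_nonneg (Real.exp_pos _).le (gk_nonneg _ _)
  -- integrability
  have hgi := gk_integral hκ Y
  have hAwi : Integrable fun u : ℝ => AA d L u * w u := by
    have h3 := (gk_integral hκ Y).1
    -- bound by an exponential times a Gaussian
    have h4 : Integrable fun u : ℝ => B * (Real.exp (2 * u) * gk (η * Y) (u - Y)) := by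
      refine Integrable.const_mul ?_ _
      have h5 : (fun u : ℝ => Real.exp (2 * u) * gk (η * Y) (u - Y)) = fun u =>
          Real.exp (2 * Y + 4 * (η * Y)) * gk (η * Y) (u - (Y + 4 * (η * Y))) := by
        funext u
        unfold gk
        have e5 : Real.exp (2 * u) * ((Real.sqrt (4 * Real.pi * (η * Y)))⁻¹ *
            Real.exp (-((u - Y) ^ 2 / (4 * (η * Y))))) = (Real.sqrt (4 * Real.pi * (η * Y)))⁻¹ *
            (Real.exp (2 * u) * Real.exp (-((u - Y) ^ 2 / (4 * (η * Y))))) := by ring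
        have e6 : Real.exp (2 * Y + 4 * (η * Y)) * ((Real.sqrt (4 * Real.pi * (η * Y)))⁻¹ *
            Real.exp (-((u - (Y + 4 * (η * Y))) ^ 2 / (4 * (η * Y))))) = (Real.sqrt (4 * Real.pi * (η * Y)))⁻¹ *
            (Real.exp (2 * Y + 4 * (η * Y)) * Real.exp (-((u - (Y + 4 * (η * Y))) ^ 2 / (4 * (η * Y))))) := by ring
        rw [e5, e6, ← Real.exp_add, ← Real.exp_add]
        congr 2
        field_simp
        ring
      rw [h5]
      exact (gk_integral hκ _).1.const_mul _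
    refine h4.mono' ?_ (Eventually.of_forall fun u => ?_)
    · have hgm : Measurable fun u : ℝ => gk (η * Y) (u - Y) := by
        unfold gk
        fun_prop
      have hem : Measurable fun u : ℝ => Real.exp (-(σ * u)) := by fun_prop
      exact (hAm.mul (hem.mul hgm)).aestronglyMeasurable
    · rw [Real.norm_eq_abs, abs_mul, abs_of_nonneg (hw0 u)]
      rcases lt_or_ge u 0 with hu | hu
      · rw [hA0 u hu, abs_zero, zero_mul]
        have := gk_nonneg (η * Y) (u - Y)
        positivity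
      · have e7 : w u ≤ gk (η * Y) (u - Y) := by
          rw [hw]
          simp only
          have : Real.exp (-(σ * u)) ≤ 1 := Real.exp_le_one_iff.2 (by nlinarith)
          have h8 := gk_nonneg (η * Y) (u - Y)
          nlinarith
        calc |AA d L u| * w u ≤ (B * Real.exp (2 * u)) * gk (η * Y) (u - Y) :=
              mul_le_mul (hAb u) e7 (hw0 u) (by positivity)
          _ = _ := by ring
  have hJA : (JA d L (σ : ℂ) (η * Y) Y).re = ∫ u : ℝ, AA d L u * w u := by
    unfold JA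
    have e1 : ∀ u : ℝ, (AA d L u : ℂ) * cexp (-((σ : ℂ) * u)) * (gk (η * Y) (u - Y) : ℂ) =
        ((AA d L u * w u : ℝ) : ℂ) := by
      intro u
      rw [hw]
      push_cast
      ring
    rw [integral_congr_ae (Eventually.of_forall e1), integral_complex_ofReal, Complex.ofReal_re]
  -- the far part
  have hfar : ∀ u : ℝ, 0 ≤ u → lam * Y < |u - Y| → |AA d L u| * w u ≤ B * Real.exp (-(2 * u)) := by
    intro u hu hf
    have e1 := far4 hlam hlam1 hη hY0 hσ hu hf hY1
    calc |AA d L u| * w u ≤ (B * Real.exp (2 * u)) * (Real.exp (-(4 * u)) * Real.exp (-Y)) :=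
          mul_le_mul (hAb u) e1 (hw0 u) (by positivity)
      _ ≤ (B * Real.exp (2 * u)) * (Real.exp (-(4 * u)) * 1) := by
          have : Real.exp (-Y) ≤ 1 := Real.exp_le_one_iff.2 (by linarith)
          gcongr
      _ = B * Real.exp (-(2 * u)) := by
          rw [mul_one, mul_assoc, ← Real.exp_add]
          congr 2
          ring
  have hexpi : IntegrableOn (fun u : ℝ => B * Real.exp (-(2 * u))) (Ioi 0) := by
    have := (integrableOn_exp_mul_Ioi (a := -2) (by norm_num) 0).const_mul B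
    show Integrable (fun u : ℝ => B * Real.exp (-(2 * u))) (volume.restrict (Ioi 0))
    simpa [neg_mul] using this
  have hexpv : ∫ u in Ioi (0 : ℝ), B * Real.exp (-(2 * u)) = B / 2 := by
    rw [integral_const_mul]
    have := integral_exp_mul_Ioi (a := -2) (by norm_num) 0
    simp only [neg_mul, mul_zero, Real.exp_zero] at this
    rw [this]
    ring
  -- a pointwise majorant of the positive part
  set E1 : ℝ → ℝ := (Ioi (0 : ℝ)).indicator (fun u => B * Real.exp (-(2 * u))) with hE1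
  have hE1i : Integrable E1 := hexpi.integrable_indicator measurableSet_Ioi
  have hE1v : ∫ u, E1 u = B / 2 := by
    rw [hE1, integral_indicator measurableSet_Ioi, hexpv]
  have hE10 : ∀ u, 0 ≤ E1 u := fun u => by
    rw [hE1]
    refine indicator_nonneg (fun v _ => by positivity) u
  have hpos : ∀ᵐ u : ℝ, max 0 (AA d L u) * w u ≤ gk (η * Y) (u - Y) + E1 u := by
    have h0 : ∀ᵐ u : ℝ, u ≠ 0 := by
      refine (measure_eq_zero_iff_ae_notMem.1 (Real.volume_singleton (a := (0 : ℝ)))).mono fun u hu => ?_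
      simpa using hu
    filter_upwards [h0] with u hu0
    have h8 := gk_nonneg (η * Y) (u - Y)
    rcases lt_or_gt_of_ne hu0 with hu | hu
    · rw [hA0 u hu, max_self, zero_mul]
      exact add_nonneg h8 (hE10 u)
    · by_cases hwin : |u - Y| ≤ lam * Y
      · have e1 : max 0 (AA d L u) ≤ Real.exp (c * u) := max_le (Real.exp_pos _).le (h u hwin)
        have e2 : Real.exp (c * u) * w u ≤ gk (η * Y) (u - Y) := by
          rw [hw]
          simp only
          rw [← mul_assoc, ← Real.exp_add]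
          have : Real.exp (c * u + -(σ * u)) ≤ 1 := Real.exp_le_one_iff.2 (by nlinarith)
          nlinarith
        have e3 := mul_le_mul_of_nonneg_right e1 (hw0 u)
        have := hE10 u
        linarith
      · push Not at hwin
        have e1 : max 0 (AA d L u) * w u ≤ |AA d L u| * w u :=
          mul_le_mul_of_nonneg_right (max_le (abs_nonneg _) (le_abs_self _)) (hw0 u)
        have e2 := hfar u hu.le hwin
        have e3 : E1 u = B * Real.exp (-(2 * u)) := by
          rw [hE1, indicator_of_mem (show u ∈ Ioi (0 : ℝ) from hu)]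
        rw [e3]
        linarith
  have hposi : Integrable fun u : ℝ => max 0 (AA d L u) * w u := by
    refine hAwi.abs.mono' ?_ (Eventually.of_forall fun u => ?_)
    · have hgm : Measurable fun u : ℝ => gk (η * Y) (u - Y) := by
        unfold gk
        fun_prop
      have hem : Measurable fun u : ℝ => Real.exp (-(σ * u)) := by fun_prop
      exact ((measurable_const.max hAm).mul (hem.mul hgm)).aestronglyMeasurable
    · show |max 0 (AA d L u) * w u| ≤ |AA d L u * w u|
      rw [abs_mul (max 0 (AA d L u)) (w u), abs_mul (AA d L u) (w u), abs_of_nonneg (hw0 u),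
        abs_of_nonneg (le_max_left _ _)]
      exact mul_le_mul_of_nonneg_right (max_le (abs_nonneg _) (le_abs_self _)) (hw0 u)
  have hposv : ∫ u, max 0 (AA d L u) * w u ≤ 1 + B / 2 := by
    refine (integral_mono_ae hposi (hgi.1.add hE1i) hpos).trans (le_of_eq ?_)
    have : ∫ u, (gk (η * Y) (u - Y) + E1 u) = _ := integral_add hgi.1 hE1i
    rw [show (∫ u, ((fun u => gk (η * Y) (u - Y)) + E1) u) = ∫ u, (gk (η * Y) (u - Y) + E1 u) from rfl, this,
      hgi.2, hE1v]
  rw [hJA]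
  refine (integral_mono hAwi hposi fun u => ?_).trans hposv
  exact mul_le_mul_of_nonneg_right (le_max_right _ _) (hw0 u)

/-- **Two-sided version of the main theorem.** -/
theorem main_two {ι : Type*} [Countable ι] {d L : ι → ℝ} (hL : ∀ i, 0 ≤ L i)
    (habs : ∀ t : ℝ, 1 < t → Summable fun i => |d i| * Real.exp (-(t * L i)))
    {F : ℂ → ℂ} (hF : MeromorphicOn F univ) (hE : ∀ s : ℂ, 1 < s.re → F s = cexp (DS d L s))
    {c : ℝ} (hc0 : 0 ≤ c)
    (hc : ∃ ρ : ℂ, c < ρ.re ∧ meromorphicOrderAt F ρ ≠ 0)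
    {lam : ℝ} (hlam : 0 < lam) (hlam1 : lam ≤ 1) :
    ∀ᶠ Y : ℝ in atTop, ∃ u : ℝ, |u - Y| ≤ lam * Y ∧ Real.exp (c * u) ≤ |AA d L u| := by
  classical
  have h2' := habs 2 (by norm_num)
  -- the singularities
  set S : Set ℝ := {x | ∃ ρ : ℂ, ρ.re = x ∧ meromorphicOrderAt F ρ ≠ 0} with hS
  have hle1 : ∀ ρ : ℂ, meromorphicOrderAt F ρ ≠ 0 → ρ.re ≤ 1 := by
    intro ρ hρ
    obtain ⟨Z, m, h, hZ1, hZ2, -, -⟩ := t_extract hL habs hF hE (c := min ρ.re 0) (H := |ρ.im| + 1)
      (lt_of_le_of_lt (min_le_right _ _) (by norm_num)) (by positivity)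
    exact (hZ1 ρ (hZ2 ρ (min_le_left _ _) (by linarith) hρ)).2.1
  have hSb : BddAbove S := by
    refine ⟨1, ?_⟩
    rintro x ⟨ρ, rfl, h⟩
    exact hle1 ρ h
  have hSn : S.Nonempty := by
    obtain ⟨ρ, -, h4⟩ := hc
    exact ⟨ρ.re, ρ, rfl, h4⟩
  set b : ℝ := sSup S with hb
  have hb1 : b ≤ 1 := csSup_le hSn (by rintro x ⟨ρ, rfl, h⟩; exact hle1 ρ h)
  have hcb : c < b := by
    obtain ⟨ρ, h3, h5⟩ := hc
    exact h3.trans_le (le_csSup hSb ⟨ρ, rfl, h5⟩)
  -- small singularities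
  obtain ⟨Z0, m0, -, hZ01, hZ02, -, -⟩ := t_extract hL habs hF hE (c := 0) (H := 1) (by norm_num) one_pos
  obtain ⟨g0, hg0, hg01, hg0Z⟩ := exists_gap Z0 (fun ρ => ρ.im ≠ 0) (fun ρ => |ρ.im|)
    (fun ρ _ h => abs_pos.2 h)
  have hgap : ∀ ρ : ℂ, 0 ≤ ρ.re → ρ.im ≠ 0 → meromorphicOrderAt F ρ ≠ 0 → g0 ≤ |ρ.im| := by
    intro ρ h3 h4 h5
    by_cases h6 : |ρ.im| ≤ 1
    · exact hg0Z ρ (hZ02 ρ h3 h6 h5) h4
    · push Not at h6
      linarith
  -- the parameters
  set η : ℝ := lam ^ 2 / 100 with hη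
  have hη0 : 0 < η := by rw [hη]; positivity
  have hη1 : η ≤ 1 / 4 := by
    rw [hη]
    nlinarith
  set V : ℝ := 2 + 2 / η with hV
  have hV0 : 0 < V := by rw [hV]; positivity
  have hV2 : 4 + 3 / η ≤ V ^ 2 := by
    rw [hV]
    have e1 : (2 + 2 / η) ^ 2 = 4 + 8 / η + (2 / η) ^ 2 := by ring
    rw [e1]
    have e2 : 3 / η ≤ 8 / η := by gcongr; norm_num
    have e3 : 0 ≤ (2 / η) ^ 2 := by positivity
    linarith
  set e : ℝ := min (η * g0 ^ 2 / 4) ((b - c) / 2) with he
  have he0 : 0 < e := lt_min (by positivity) (by linarith)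
  have he1 : e ≤ η * g0 ^ 2 / 4 := min_le_left _ _
  have he2 : e ≤ (b - c) / 2 := min_le_right _ _
  set σ : ℝ := b - e with hσ
  have hσc : c < σ := by rw [hσ]; linarith
  have hσ0 : 0 < σ := by linarith
  have hσ1 : σ < 1 := by rw [hσ]; linarith
  set c' : ℝ := (c + σ) / 2 with hc'
  have hc'σ : c' < σ := by rw [hc']; linarith
  have hc'0 : 0 < c' := by
    rw [hc']
    linarith
  have hc'c : c < c' := by
    rw [hc']
    linarith
  set c1 : ℝ := (c' + σ) / 2 with hc1
  have hc1σ : c1 < σ := by rw [hc1]; linarith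
  have hc'c1 : c' < c1 := by rw [hc1]; linarith
  -- a singularity to the right of `σ`
  obtain ⟨x1, ⟨ρ1, rfl, hρ1o⟩, hρ1σ⟩ := exists_lt_of_lt_csSup hSn (show σ < sSup S by
    rw [hσ, ← hb]; linarith)
  set r1 : ℝ := min 1 ((ρ1.re - σ) / 2) with hr1
  have hr10 : 0 < r1 := lt_min one_pos (by linarith)
  set H0 : ℝ := |ρ1.im| + 1 + V with hH0
  have hH00 : 0 < H0 := by rw [hH0]; positivity
  obtain ⟨H, hH0H, hprim⟩ := t_prim hc'c1 (show c1 < 2 by linarith) hH00
  obtain ⟨Z, m, h, hZ1, hZ2, hZ3, hZ4⟩ := t_extract hL habs hF hE (c := c') (H := H) (by linarith) (by linarith)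
  have hρ1Z : ρ1 ∈ Z := hZ2 ρ1 (by linarith) (by rw [hH0] at hH0H; linarith) hρ1o
  have hZr : ∀ ρ ∈ Z, c' ≤ ρ.re ∧ ρ.re ≤ 1 := fun ρ hρ => ⟨(hZ1 ρ hρ).1, (hZ1 ρ hρ).2.1⟩
  obtain ⟨t0, ht1, ht2, hinj⟩ := exists_generic Z hη0 hη1 hσ0.le hσ1.le
    (fun ρ hρ => ⟨by linarith [(hZr ρ hρ).1], (hZr ρ hρ).2⟩) (u := ρ1.im) hr10
  -- the complex base point
  set s1 : ℂ := (σ : ℂ) + t0 * I with hs1
  have hs1r : s1.re = σ := by simp [hs1]
  have hs1i : s1.im = t0 := by simp [hs1]
  have ht0 : |t0| ≤ |ρ1.im| + 1 := by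
    have h3 : |t0 - ρ1.im| ≤ 1 := by
      rw [abs_le]
      have : r1 ≤ 1 := min_le_left _ _
      constructor <;> linarith
    have h4 := abs_add_le (t0 - ρ1.im) ρ1.im
    rw [sub_add_cancel] at h4
    linarith
  obtain ⟨φ, hφ, hlarge⟩ := SZ_exp (Z := Z) (m := m) (η := η) (s := s1) (fun ρ hρ => (hZ1 ρ hρ).2.2.2.2) hinj hρ1Z
    (by
    rw [ex_re, hs1r, hs1i]
    have h3 : (ρ1.im - t0) ^ 2 ≤ r1 ^ 2 := by nlinarith
    have h4 : r1 ^ 2 ≤ (ρ1.re - σ) / 2 := by
      have h5 : r1 ≤ 1 := min_le_left _ _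
      have h6 : r1 ≤ (ρ1.re - σ) / 2 := min_le_right _ _
      nlinarith
    have h5 : η * (ρ1.im - t0) ^ 2 ≤ 1 * ((ρ1.re - σ) / 2) :=
      mul_le_mul (by linarith) (h3.trans h4) (by positivity) zero_le_one
    have h6 : 0 ≤ η * (ρ1.re - σ) ^ 2 := by positivity
    nlinarith)
  -- the logarithm near the real base point
  have hZ1' : ∀ ρ ∈ Z, ρ.re ≤ 1 := fun ρ hρ => (hZr ρ hρ).2
  have hgd : ∀ s : ℂ, 1 < s.re → HasDerivAt (fun s => PL Z m s - DS d L s)
      ((∑ ρ ∈ Z, (m ρ : ℂ) / (s - ρ)) - -ZZ d L s) s := by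
    intro s hs
    have h3 : DifferentiableAt ℂ (DS d L) s :=
      (DS_diff hL habs).differentiableAt ((isOpen_lt continuous_const Complex.continuous_re).mem_nhds hs)
    have h4 := h3.hasDerivAt
    rw [Pool.Agent.TH443.TXExtract.ds_deriv hL habs hs] at h4
    exact (PL_diff hZ1' hs).sub h4
  obtain ⟨k, hk1, hk2⟩ := hprim h (fun s => PL Z m s - DS d L s) hZ3
    (fun s hs => (hgd s hs).differentiableAt) (fun s hs hs2 hsH => by
      rw [(hgd s hs).deriv, hZ4 s hs hs2 hsH]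
      ring)
  have hVH0 : V ≤ H0 := by
    rw [hH0]
    have := abs_nonneg ρ1.im
    linarith
  -- the explicit formula
  have hx1 := explicit hL habs hc'0 hZr hZ3 hZ4 hη0 hη1 hV2 hV0 (s0 := s1) (by rw [hs1r]; exact hc'σ)
    (by rw [hs1r]; exact hσ1) (by rw [hs1i]; rw [hH0] at hH0H; linarith)
  have hy1 := (tendsto_zero_iff_norm_tendsto_zero.1 hx1).eventually (gt_mem_nhds (show (0 : ℝ) < 1 / 100 by norm_num))
  set B : ℝ := ∑' i, |d i| * Real.exp (-(2 * L i)) with hB
  have hB0 : 0 ≤ B := tsum_nonneg fun i => by positivity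
  set K : ℝ := 1 + ‖(σ : ℂ) + t0 * I‖ + 1 / η with hK
  have hK0 : 0 ≤ K := by rw [hK]; positivity
  have hpi : 0 < 4 * Real.pi * η := by positivity
  -- exponential growth wins
  have hgrow : ∀ᶠ Y : ℝ in atTop, K * (1 + 2 * Y) ^ 2 * (2 + 2 * B + (1 + B / 2)) + 4 * K * B <
      1 / 2 * Real.exp (Y * φ) - 1 / 100 := by
    have h3 : Tendsto (fun Y : ℝ => Real.exp (φ * Y) / Y ^ 2) atTop atTop := by
      have := tendsto_exp_mul_div_rpow_atTop 2 φ hφ
      refine this.congr fun Y => ?_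
      norm_cast
    have h4 := h3.eventually_gt_atTop (2 * (9 * K * (2 + 2 * B + (1 + B / 2)) + 4 * K * B + 1 / 100))
    filter_upwards [h4, eventually_ge_atTop 1] with Y h5 h6
    have h7 : 0 < Y ^ 2 := by positivity
    rw [lt_div_iff₀ h7] at h5
    have h8 : (1 + 2 * Y) ^ 2 ≤ 9 * Y ^ 2 := by nlinarith
    have h9 : K * (1 + 2 * Y) ^ 2 * (2 + 2 * B + (1 + B / 2)) ≤ K * (9 * Y ^ 2) * (2 + 2 * B + (1 + B / 2)) := by gcongr
    have h10 : 1 ≤ Y ^ 2 := by nlinarith
    have h11 : 4 * K * B ≤ 4 * K * B * Y ^ 2 := by nlinarith [mul_nonneg hK0 hB0]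
    have h12 : (1 / 100 : ℝ) ≤ 1 / 100 * Y ^ 2 := by nlinarith
    rw [mul_comm Y φ]
    linarith
  filter_upwards [hlarge, hy1, hgrow, eventually_ge_atTop 1, eventually_ge_atTop (1 / (4 * Real.pi * η))]
    with Y a1 a3 a4 a5 a6
  by_contra hcon
  push Not at hcon
  have a7 : 1 ≤ 4 * Real.pi * (η * Y) := by
    rw [div_le_iff₀ hpi] at a6
    linarith
  have a2 : -(1 + B / 2) ≤ (JA d L (σ : ℂ) (η * Y) Y).re := by
    have h3 := JA_le (d := fun i => -d i) hL (by simpa only [abs_neg] using h2') hlam hlam1 hη hσ0.le a5 a7 hσc.le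
      (fun u hu => by
        rw [AA_neg']
        exact (neg_le_abs _).trans (hcon u hu).le)
    rw [JA_neg', Complex.neg_re] at h3
    simp only [abs_neg] at h3
    rw [← hB] at h3
    linarith
  have n1 := JJ_upper hL h2' (t0 := t0) (ε := 1 + B / 2) hlam hlam1 hη hσ0.le a5 a7 hσc.le a2
    (fun u hu => (le_abs_self _).trans (hcon u hu).le)
  rw [← hs1, ← hB] at n1
  rw [← hs1] at hK
  rw [← hK] at n1
  have n3 : 1 / 2 * Real.exp (Y * φ) - 1 / 100 ≤ ‖JJ d L s1 (η * Y) Y‖ := by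
    have := norm_sub_norm_le (SZ Z m η s1 Y) (-(JJ d L s1 (η * Y) Y))
    rw [norm_neg, sub_neg_eq_add, add_comm] at this
    linarith
  linarith

end Pool.Agent.Q18.LF
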