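import Mathlib
import Pool.Agent.Q18.LF.Aut
import Pool.Agent.Q18.LF.Two

/-! Singularities near the critical line for quotients of entire functions. -/

set_option autoImplicit false

open Complex MeasureTheory Set Filter Topology
open Pool.Agent.W189.TP (DS DS_diff DS_norm_le summ_mono PS LL LL_nonneg)
open Pool.Agent.TH949.RES (GF KK KK_nonneg gr_ne0)
open Pool.Agent.TH949.TX (AA main_sum hex_abs ub_entire conj_ext DS_conj t_quot)

namespace Pool.Agent.Q18.LF

/-- an entire function is nonzero at arbitrarily high points of a vertical line -/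
theorem ent_freq {W : ℂ → ℂ} (hW : Differentiable ℂ W) (h0 : ∃ z, W z ≠ 0) (σ : ℝ) :
    ∃ᶠ t : ℝ in atTop, W ((σ : ℂ) + t * I) ≠ 0 := by
  intro h
  simp only [not_not] at h
  obtain ⟨T, hT⟩ := eventually_atTop.1 h
  set z : ℂ := (σ : ℂ) + ((T + 1 : ℝ) : ℂ) * Complex.I with hz
  have h1 : AnalyticOnNhd ℂ W Set.univ := Complex.analyticOnNhd_univ_iff_differentiable.2 hW
  have h2 : Tendsto (fun t : ℝ => (σ : ℂ) + t * Complex.I) (𝓝[>] (T + 1)) (𝓝[≠] z) := by
    refine tendsto_nhdsWithin_iff.2 ⟨?_, ?_⟩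
    · have : Continuous fun t : ℝ => (σ : ℂ) + t * Complex.I := by fun_prop
      exact (this.tendsto (T + 1)).mono_left nhdsWithin_le_nhds
    · filter_upwards [self_mem_nhdsWithin] with t ht
      simp only [Set.mem_compl_iff, Set.mem_singleton_iff, hz]
      intro h3
      have h4 := congrArg Complex.im h3
      simp at h4
      have : T + 1 < t := ht
      linarith
  have h3 : ∃ᶠ w in 𝓝[≠] z, W w = 0 := by
    refine h2.frequently (Eventually.frequently ?_)
    filter_upwards [self_mem_nhdsWithin] with t ht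
    have ht' : T + 1 < t := ht
    exact hT t (by linarith)
  obtain ⟨w, hw⟩ := h0
  exact hw (h1.eqOn_zero_of_preconnected_of_frequently_eq_zero isPreconnected_univ (Set.mem_univ z) h3
    (Set.mem_univ w))

/-- the conjugate function -/
noncomputable def cj (f : ℂ → ℂ) (s : ℂ) : ℂ := (starRingEnd ℂ) (f ((starRingEnd ℂ) s))

theorem mul_ne_ex {f g : ℂ → ℂ} (hf : Differentiable ℂ f) (hg : Differentiable ℂ g) (hf0 : ∃ z, f z ≠ 0)
    (hg0 : ∃ z, g z ≠ 0) : ∃ z, f z * g z ≠ 0 := by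
  by_contra hcon
  push Not at hcon
  obtain ⟨z, hz⟩ := hf0
  have h1 : AnalyticOnNhd ℂ g Set.univ := Complex.analyticOnNhd_univ_iff_differentiable.2 hg
  have h2 : ∀ᶠ w in 𝓝 z, g w = 0 := by
    filter_upwards [(hf.continuous.continuousAt).eventually_ne hz] with w hw
    rcases mul_eq_zero.1 (hcon w) with h3 | h3
    · exact absurd h3 hw
    · exact h3
  obtain ⟨w, hw⟩ := hg0
  exact hw (h1.eqOn_of_preconnected_of_eventuallyEq (fun _ _ => analyticAt_const) isPreconnected_univ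
    (Set.mem_univ z) h2 (Set.mem_univ w))

/-- **singularities near the critical line, for quotients** -/
theorem mero_hex {ι : Type*} [Countable ι] {d L : ι → ℝ} (hL : ∀ i, 0 ≤ L i)
    (habs : ∀ t : ℝ, 1 < t → Summable fun i => |d i| * Real.exp (-(t * L i)))
    {U V : ℂ → ℂ} (hU : Differentiable ℂ U) (hV : Differentiable ℂ V) (hVne : ∀ s : ℂ, 1 < s.re → V s ≠ 0)
    (hUV : ∀ s : ℂ, 1 < s.re → U s = V s * cexp (DS d L s))
    (hgU : ∀ a b : ℝ, 0 < a → ∃ C A : ℝ, ∀ s : ℂ, a ≤ s.re → s.re ≤ b → ‖U s‖ ≤ C * (1 + |s.im|) ^ A)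
    (hgV : ∀ a b : ℝ, 0 < a → ∃ C A : ℝ, ∀ s : ℂ, a ≤ s.re → s.re ≤ b → ‖V s‖ ≤ C * (1 + |s.im|) ^ A)
    {v0 : ℝ} (hv0 : 0 < v0) (hV2 : ∀ t : ℝ, 1 ≤ t → v0 ≤ ‖V ((2 : ℂ) + t * I)‖)
    {N : ℕ} (hN : 1 ≤ N) {κ : Fin N → ℂ}
    (hκ : Multiset.map (fun j => (starRingEnd ℂ) (κ j)) Finset.univ.val = Multiset.map κ Finset.univ.val)
    {Q T : ℝ} {ω : ℂ} (hω : ω ≠ 0)
    (hfe : ∀ s : ℂ, T < |s.im| → U (1 - s) * cj V s * GF κ Q (1 - s) = ω * (cj U s * V (1 - s) * GF κ Q s)) :
    ∃ F : ℂ → ℂ, MeromorphicOn F univ ∧ (∀ s : ℂ, 1 < s.re → F s = cexp (DS d L s)) ∧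
      (∀ s : ℂ, meromorphicOrderAt F s = meromorphicOrderAt (fun z => U z / V z) s) ∧
      ∀ δ : ℝ, 0 < δ → ∃ ρ : ℂ, 1 / 2 - δ < ρ.re ∧ ρ.im ≠ 0 ∧ meromorphicOrderAt F ρ ≠ 0 := by
  have hcU : Differentiable ℂ (cj U) := conj_diff hU
  have hcV : Differentiable ℂ (cj V) := conj_diff hV
  have hV0 : ∃ z, V z ≠ 0 := ⟨2, hVne 2 (by norm_num)⟩
  obtain ⟨F, hF, hF1, -, hF3⟩ := t_quot hU hV hV0
    ⟨2, by rw [hUV 2 (by norm_num)]; exact mul_ne_zero (hVne 2 (by norm_num)) (Complex.exp_ne_zero _)⟩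
  have hFE : ∀ s : ℂ, 1 < s.re → F s = cexp (DS d L s) := fun s hs => by
    rw [(hF1 s (hVne s hs)).1, hUV s hs, mul_div_cancel_left₀ _ (hVne s hs)]
  have hord : ∀ s : ℂ, meromorphicOrderAt F s = meromorphicOrderAt (fun z => U z / V z) s := by
    intro s
    refine meromorphicOrderAt_congr ?_
    have h1 : ∀ᶠ z in 𝓝[≠] s, V z ≠ 0 := by
      rcases (hV.analyticAt s).eventually_eq_zero_or_eventually_ne_zero with h2 | h2
      · exfalso
        obtain ⟨w, hw⟩ := hV0
        have h3 : AnalyticOnNhd ℂ V Set.univ := Complex.analyticOnNhd_univ_iff_differentiable.2 hV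
        exact hw (h3.eqOn_of_preconnected_of_eventuallyEq (fun _ _ => analyticAt_const) isPreconnected_univ
          (Set.mem_univ s) h2 (Set.mem_univ w))
      · exact h2
    filter_upwards [h1] with z hz using (hF1 z hz).1
  -- the symmetry
  have hsym : ∀ s : ℂ, U s * cj V s = cj U s * V s := by
    have h1 : AnalyticOnNhd ℂ (fun s => U s * cj V s) Set.univ :=
      Complex.analyticOnNhd_univ_iff_differentiable.2 (hU.mul hcV)
    have h2 : AnalyticOnNhd ℂ (fun s => cj U s * V s) Set.univ :=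
      Complex.analyticOnNhd_univ_iff_differentiable.2 (hcU.mul hV)
    have h3 : (fun s => U s * cj V s) =ᶠ[𝓝 2] fun s => cj U s * V s := by
      filter_upwards [(isOpen_lt continuous_const Complex.continuous_re).mem_nhds
        (show (1 : ℝ) < (2 : ℂ).re by norm_num)] with s hs
      have hs' : 1 < s.re := hs
      have hs2 : 1 < ((starRingEnd ℂ) s).re := by simpa using hs'
      unfold cj
      rw [hUV s hs', hUV _ hs2, map_mul, DS_conj, ← Complex.exp_conj, Complex.conj_conj]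
      ring
    intro s
    exact h1.eqOn_of_preconnected_of_eventuallyEq h2 isPreconnected_univ (Set.mem_univ _) h3 (Set.mem_univ s)
  have hconj : ∀ s : ℂ, V s ≠ 0 → cj V s ≠ 0 → F ((starRingEnd ℂ) s) = (starRingEnd ℂ) (F s) := by
    intro s h1 h2
    have h3 : V ((starRingEnd ℂ) s) ≠ 0 := by
      intro h4
      apply h2
      unfold cj
      rw [h4, map_zero]
    rw [(hF1 s h1).1, (hF1 _ h3).1, map_div₀]
    have h4 : (starRingEnd ℂ) (V s) ≠ 0 := (map_ne_zero _).2 h1
    rw [div_eq_div_iff h3 h4]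
    have h5 := congrArg (starRingEnd ℂ) (hsym s)
    unfold cj at h5
    rw [map_mul, map_mul, Complex.conj_conj, Complex.conj_conj] at h5
    linear_combination -h5
  refine ⟨F, hF, hFE, hord, ?_⟩
  refine hex_abs hL habs hFE hN hκ (Q := Q) (T := 0) le_rfl (inv_ne_zero hω)
    (fun s _ _ h0 => ⟨(hF3 s h0).1, (hF3 s h0).2.1⟩) (fun c0 hc0 hc1 hreg R hR hRc => ?_) (fun a ha ha2 => ?_)
  · obtain ⟨C1, A1, hCA1⟩ := growth_form hgU (a := c0) (by linarith) 4
    obtain ⟨C2, A2, hCA2⟩ := growth_form hgV (a := c0) (by linarith) 4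
    refine ub_entire hL habs (by linarith) hreg hFE (G := U) (V := V) (fun s h1 h2 => ?_) hU hV
      (C := |C1| + |C2|) (A := max A1 A2) (fun s h1 h2 h3 => ?_) hv0 hV2 hR hRc
    · have h4 : AnalyticAt ℂ F s := by
        refine analyticAt_iff_eventually_differentiableAt.2 ?_
        filter_upwards [(isOpen_lt continuous_const Complex.continuous_re).mem_nhds h1,
          (isOpen_lt continuous_const Complex.continuous_im).mem_nhds h2] with z hz1 hz2 using (hreg z hz1 hz2).1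
      exact (hF3 s (by
        rw [h4.meromorphicOrderAt_eq, h4.analyticOrderAt_eq_zero.2 (hreg s h1 h2).2]
        rfl)).2.2
    · have e1 : |s.im| ^ A1 ≤ |s.im| ^ max A1 A2 := Real.rpow_le_rpow_of_exponent_le h3 (le_max_left _ _)
      have e2 : |s.im| ^ A2 ≤ |s.im| ^ max A1 A2 := Real.rpow_le_rpow_of_exponent_le h3 (le_max_right _ _)
      have p1 : 0 ≤ |s.im| ^ A1 := by positivity
      have p2 : 0 ≤ |s.im| ^ A2 := by positivity
      have f1 : C1 ≤ |C1| + |C2| := by
        have := le_abs_self C1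
        have := abs_nonneg C2
        linarith
      have f2 : C2 ≤ |C1| + |C2| := by
        have := le_abs_self C2
        have := abs_nonneg C1
        linarith
      have f0 : 0 ≤ |C1| + |C2| := by positivity
      constructor
      · calc ‖U s‖ ≤ C1 * |s.im| ^ A1 := (hCA1 s h1.le h2 h3).1
          _ ≤ (|C1| + |C2|) * |s.im| ^ A1 := mul_le_mul_of_nonneg_right f1 p1
          _ ≤ _ := mul_le_mul_of_nonneg_left e1 f0
      · calc ‖V s‖ ≤ C2 * |s.im| ^ A2 := (hCA2 s h1.le h2 h3).1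
          _ ≤ (|C1| + |C2|) * |s.im| ^ A2 := mul_le_mul_of_nonneg_right f2 p2
          _ ≤ _ := mul_le_mul_of_nonneg_left e2 f0
  · refine ⟨(a + 1 / 2) / 2, 1, 1, by linarith, by linarith, one_pos, one_pos, ?_⟩
    set σ : ℝ := (a + 1 / 2) / 2 with hσ
    -- the product of the denominators
    have hr : ∀ {f : ℂ → ℂ}, Differentiable ℂ f → Differentiable ℂ fun s => f (1 - s) := fun hf =>
      hf.comp (differentiable_id.const_sub 1)
    have hcV0 : ∃ z, cj V z ≠ 0 := by
      obtain ⟨z, hz⟩ := hV0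
      refine ⟨(starRingEnd ℂ) z, ?_⟩
      unfold cj
      rw [Complex.conj_conj]
      exact (map_ne_zero _).2 hz
    have hrV0 : ∀ {f : ℂ → ℂ}, (∃ z, f z ≠ 0) → ∃ z, f (1 - z) ≠ 0 := fun ⟨z, hz⟩ => ⟨1 - z, by rwa [sub_sub_cancel]⟩
    have hW1 := mul_ne_ex hV hcV hV0 hcV0
    have hW2 := mul_ne_ex (hr hV) (hr hcV) (hrV0 hV0) (hrV0 hcV0)
    have hW := mul_ne_ex (hV.mul hcV) ((hr hV).mul (hr hcV)) hW1 hW2
    have hfr := ent_freq ((hV.mul hcV).mul ((hr hV).mul (hr hcV))) hW σ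
    refine (hfr.and_eventually ((eventually_gt_atTop T).and (eventually_gt_atTop 0))).mono ?_
    rintro t ⟨hne, htT, ht0⟩
    set s : ℂ := (σ : ℂ) + t * I with hs
    have him : |s.im| = t := by rw [hs]; simp [abs_of_pos ht0]
    have hne' : (V s * cj V s) * (V (1 - s) * cj V (1 - s)) ≠ 0 := hne
    have h1 : V s ≠ 0 := left_ne_zero_of_mul (left_ne_zero_of_mul hne')
    have h2 : cj V s ≠ 0 := right_ne_zero_of_mul (left_ne_zero_of_mul hne')
    have h3 : V (1 - s) ≠ 0 := left_ne_zero_of_mul (right_ne_zero_of_mul hne')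
    have h4 : cj V (1 - s) ≠ 0 := right_ne_zero_of_mul (right_ne_zero_of_mul hne')
    refine ⟨1, 1, by simp, by simp, ?_, ?_⟩
    · rw [(hF1 s h1).1, (hF1 _ h3).1]
      have h5 := hfe s (by rw [him]; exact htT)
      have h6 := hsym s
      field_simp
      have h7 : cj U s = U s * cj V s / V s := by rw [h6]; field_simp
      rw [h7] at h5
      have h8 : U (1 - s) * GF κ Q (1 - s) = ω * (U s / V s * V (1 - s) * GF κ Q s) := by
        apply mul_right_cancel₀ h2
        field_simp at h5 ⊢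
        linear_combination h5
      field_simp at h8
      linear_combination (-1 : ℂ) * h8
    · have e3 : ((1 - σ : ℝ) : ℂ) + t * I = (starRingEnd ℂ) (1 - s) := by
        rw [hs]
        simp only [map_add, map_sub, map_one, map_mul, Complex.conj_I, Complex.conj_ofReal]
        push_cast
        ring
      rw [e3, hconj _ h3 h4, RCLike.norm_conj]

end Pool.Agent.Q18.LF
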