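import Mathlib
import Pool.Agent.Q18.LF.Mero

/-! Signed and two-sided sums for meromorphic functions; sums over the primes. -/

set_option autoImplicit false

open Complex MeasureTheory Set Filter Topology
open Pool.Agent.W189.TP (DS DS_diff DS_norm_le summ_mono PS LL LL_nonneg)
open Pool.Agent.TH949.TX (AA main_sum LL_fin LL_le primes_card primes_log_fin)
open Pool.Agent.Q18.RS (ds_neg order_ne_top sum_pos')

namespace Pool.Agent.Q18.LF

theorem wt_neg_ne {o : WithTop ℤ} (h : o ≠ 0) : -o ≠ 0 := by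
  intro h6
  apply h
  cases o with
  | top => exact absurd h6 (by simp)
  | coe m =>
    have h9 : (-(m : WithTop ℤ)) = ((-m : ℤ) : WithTop ℤ) := rfl
    rw [h9] at h6
    have h10 : -m = 0 := by exact_mod_cast h6
    have h11 : m = 0 := by omega
    rw [h11]
    rfl

theorem wt_neg_le {o : WithTop ℤ} (ht : o ≠ ⊤) (h : 0 ≤ o) : -o ≤ 0 := by
  cases o with
  | top => exact absurd rfl ht
  | coe m =>
    have h8 : 0 ≤ m := by exact_mod_cast h
    have h9 : (-(m : WithTop ℤ)) = ((-m : ℤ) : WithTop ℤ) := rfl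
    rw [h9]
    exact_mod_cast (by omega : -m ≤ 0)

/-- the signed sum takes large negative values at every scale, if there are no real poles -/
theorem sum_neg' {ι : Type*} [Countable ι] {d L : ι → ℝ} (hL : ∀ i, 0 ≤ L i)
    (habs : ∀ t : ℝ, 1 < t → Summable fun i => |d i| * Real.exp (-(t * L i)))
    {F : ℂ → ℂ} (hF : MeromorphicOn F univ) (hE : ∀ s : ℂ, 1 < s.re → F s = cexp (DS d L s))
    (hex : ∀ δ : ℝ, 0 < δ → ∃ ρ : ℂ, 1 / 2 - δ < ρ.re ∧ ρ.im ≠ 0 ∧ meromorphicOrderAt F ρ ≠ 0) {c : ℝ}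
    (hreal : ∀ x : ℝ, c < x → 0 ≤ meromorphicOrderAt F (x : ℂ))
    (hc : c < 1 / 2 ∨ ∃ ρ : ℂ, c < ρ.re ∧ meromorphicOrderAt F ρ ≠ 0) :
    ∃ a : ℝ, c < a ∧ 0 < a ∧ ∀ lam : ℝ, 0 < lam → lam ≤ 1 → ∀ᶠ Y : ℝ in atTop, ∃ u : ℝ, |u - Y| ≤ lam * Y ∧
      Real.exp (a * u) ≤ AA (fun i => -d i) L u := by
  refine sum_pos' (d := fun i => -d i) (F := F⁻¹) hL (fun t ht => ?_) hF.inv (fun s hs => ?_) (fun δ hδ => ?_)
    (fun x hx => ?_) (hc.imp id fun ⟨ρ, h1, h2⟩ => ⟨ρ, h1, ?_⟩)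
  · simpa only [abs_neg] using habs t ht
  · rw [Pi.inv_apply, hE s hs, ds_neg, Complex.exp_neg]
  · obtain ⟨ρ, h1, h2, h3⟩ := hex δ hδ
    refine ⟨ρ, h1, h2, ?_⟩
    rw [meromorphicOrderAt_inv]
    exact wt_neg_ne h3
  · rw [meromorphicOrderAt_inv]
    exact wt_neg_le (order_ne_top hL habs hF hE _) (hreal x hx)
  · rw [meromorphicOrderAt_inv]
    exact wt_neg_ne h2

/-- the sum takes large absolute values at every scale -/
theorem sum_two {ι : Type*} [Countable ι] {d L : ι → ℝ} (hL : ∀ i, 0 ≤ L i)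
    (habs : ∀ t : ℝ, 1 < t → Summable fun i => |d i| * Real.exp (-(t * L i)))
    {F : ℂ → ℂ} (hF : MeromorphicOn F univ) (hE : ∀ s : ℂ, 1 < s.re → F s = cexp (DS d L s))
    (hex : ∀ δ : ℝ, 0 < δ → ∃ ρ : ℂ, 1 / 2 - δ < ρ.re ∧ ρ.im ≠ 0 ∧ meromorphicOrderAt F ρ ≠ 0) {c : ℝ}
    (hc : c < 1 / 2 ∨ ∃ ρ : ℂ, c < ρ.re ∧ meromorphicOrderAt F ρ ≠ 0) :
    ∃ a : ℝ, c < a ∧ 0 < a ∧ ∀ lam : ℝ, 0 < lam → lam ≤ 1 → ∀ᶠ Y : ℝ in atTop, ∃ u : ℝ, |u - Y| ≤ lam * Y ∧
      Real.exp (a * u) ≤ |AA d L u| := by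
  obtain ⟨a, h1, h2, h3⟩ : ∃ a : ℝ, c < a ∧ 0 < a ∧ ∃ ρ : ℂ, a < ρ.re ∧ meromorphicOrderAt F ρ ≠ 0 := by
    by_cases hc2 : c < 1 / 2
    · have hm : max c 0 < 1 / 2 := max_lt hc2 (by norm_num)
      obtain ⟨ρ, h1, -, h3⟩ := hex (1 / 2 - (max c 0 + 1 / 2) / 2) (by linarith)
      refine ⟨(max c 0 + 1 / 2) / 2, ?_, ?_, ρ, by linarith, h3⟩
      · have := le_max_left c 0
        linarith
      · have := le_max_right c 0
        linarith
    · rcases hc with hc | ⟨ρ, h1, h2⟩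
      · exact absurd hc hc2
      · push Not at hc2
        exact ⟨(c + ρ.re) / 2, by linarith, by linarith, ρ, by linarith, h2⟩
  exact ⟨a, h1, h2, fun lam hlam hlam1 => main_two hL habs hF hE h2.le h3 hlam hlam1⟩

/-! ### Sums over the primes -/

variable {S : Finset Nat.Primes}

/-- the prime powers contribute at most `M √x (log x / log 2 + 1)` -/
theorem AA_primes {d : PS S × ℕ → ℝ} {M : ℝ} (hM : ∀ y, |d y| ≤ M) {x : ℝ} (hx : 1 ≤ x) :
    |AA d LL (Real.log x) - ∑' p : PS S, (open Classical in if ((p.1 : ℕ) : ℝ) ≤ x then d (p, 0) else 0)| ≤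
      M * (x ^ (1 / 2 : ℝ) * (Real.log x / Real.log 2 + 1)) := by
  classical
  have hx0 : 0 < x := by linarith
  have hlog2 : 0 < Real.log 2 := Real.log_pos (by norm_num)
  have hlx : 0 ≤ Real.log x := Real.log_nonneg hx
  have hfin : {y : PS S × ℕ | LL y ≤ Real.log x}.Finite := LL_fin _
  have hfin1 : {p : PS S | Real.log ((p.1 : ℕ) : ℝ) ≤ Real.log x}.Finite := primes_log_fin _
  have hfin2 : {p : PS S | Real.log ((p.1 : ℕ) : ℝ) ≤ Real.log x / 2}.Finite := primes_log_fin _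
  set T := hfin.toFinset with hT
  set T1 := hfin1.toFinset with hT1
  set T2 := hfin2.toFinset with hT2
  have hmem : ∀ y : PS S × ℕ, y ∈ T ↔ LL y ≤ Real.log x := fun y => by
    rw [hT, Set.Finite.mem_toFinset, Set.mem_ofPred_eq]
  have hmem1 : ∀ p : PS S, p ∈ T1 ↔ ((p.1 : ℕ) : ℝ) ≤ x := fun p => by
    have hp : (0 : ℝ) < ((p.1 : ℕ) : ℝ) := by exact_mod_cast p.1.2.pos
    rw [hT1, Set.Finite.mem_toFinset, Set.mem_ofPred_eq, Real.log_le_log_iff hp hx0]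
  have h1 : AA d LL (Real.log x) = ∑ y ∈ T, d y := by
    unfold AA
    rw [tsum_eq_sum (s := T) fun y hy => by rw [if_neg ((hmem y).not.1 hy)]]
    exact Finset.sum_congr rfl fun y hy => by rw [if_pos ((hmem y).1 hy)]
  have h2 : (∑' p : PS S, (if ((p.1 : ℕ) : ℝ) ≤ x then d (p, 0) else 0)) = ∑ p ∈ T1, d (p, 0) := by
    rw [tsum_eq_sum (s := T1) fun p hp => by rw [if_neg ((hmem1 p).not.1 hp)]]
    exact Finset.sum_congr rfl fun p hp => by rw [if_pos ((hmem1 p).1 hp)]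
  have h3 : ∑ y ∈ T, d y = ∑ y ∈ T with y.2 = 0, d y + ∑ y ∈ T with ¬ y.2 = 0, d y :=
    (Finset.sum_filter_add_sum_filter_not T _ _).symm
  have h4 : ∑ y ∈ T with y.2 = 0, d y = ∑ p ∈ T1, d (p, 0) := by
    have e1 : T.filter (fun y => y.2 = 0) = T1.map ⟨fun p : PS S => (p, 0), fun p q h => (Prod.ext_iff.1 h).1⟩ := by
      ext ⟨p, k⟩
      simp only [Finset.mem_filter, Finset.mem_map, Function.Embedding.coeFn_mk, Prod.mk.injEq, hmem, hmem1,
        LL_le hx0]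
      constructor
      · rintro ⟨h5, rfl⟩
        exact ⟨p, by simpa using h5, rfl, rfl⟩
      · rintro ⟨q, h5, rfl, rfl⟩
        exact ⟨by simpa using h5, rfl⟩
    rw [e1, Finset.sum_map]
    rfl
  have h5 : |∑ y ∈ T with ¬ y.2 = 0, d y| ≤ M * ((T.filter fun y => ¬ y.2 = 0).card : ℝ) := by
    refine (Finset.abs_sum_le_sum_abs _ _).trans ?_
    refine (Finset.sum_le_sum fun y _ => hM y).trans ?_
    rw [Finset.sum_const, nsmul_eq_mul, mul_comm]
  have h6 : (T.filter fun y => ¬ y.2 = 0) ⊆ T2 ×ˢ Finset.range (⌊Real.log x / Real.log 2⌋₊ + 1) := by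
    rintro ⟨p, k⟩ hy
    rw [Finset.mem_filter, hT, Set.Finite.mem_toFinset] at hy
    obtain ⟨hy1, hy2⟩ := hy
    have hl : Real.log 2 ≤ Real.log ((p.1 : ℕ) : ℝ) :=
      Real.log_le_log (by norm_num) (by exact_mod_cast p.1.2.two_le)
    have hy3 : ((k : ℝ) + 1) * Real.log ((p.1 : ℕ) : ℝ) ≤ Real.log x := hy1
    have hk1 : (1 : ℝ) ≤ k := by
      have : 1 ≤ k := Nat.one_le_iff_ne_zero.2 hy2
      exact_mod_cast this
    rw [Finset.mem_product, hT2, Set.Finite.mem_toFinset, Finset.mem_range, Nat.lt_succ_iff]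
    constructor
    · show Real.log ((p.1 : ℕ) : ℝ) ≤ Real.log x / 2
      nlinarith
    · show k ≤ _
      refine Nat.le_floor ?_
      rw [le_div_iff₀ hlog2]
      nlinarith
  have h7 : ((T.filter fun y => ¬ y.2 = 0).card : ℝ) ≤ x ^ (1 / 2 : ℝ) * (Real.log x / Real.log 2 + 1) := by
    have e1 := Finset.card_le_card h6
    rw [Finset.card_product, Finset.card_range] at e1
    have e2 : (T2.card : ℝ) ≤ x ^ (1 / 2 : ℝ) := by
      have e3 := primes_card (S := S) (Real.log x / 2)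
      rw [Set.ncard_eq_toFinset_card _ hfin2, one_mul] at e3
      refine e3.trans (le_of_eq ?_)
      rw [Real.rpow_def_of_pos hx0]
      congr 1
      ring
    have e4 : ((⌊Real.log x / Real.log 2⌋₊ + 1 : ℕ) : ℝ) ≤ Real.log x / Real.log 2 + 1 := by
      push_cast
      have := Nat.floor_le (a := Real.log x / Real.log 2) (by positivity)
      linarith
    calc ((T.filter fun y => ¬ y.2 = 0).card : ℝ) ≤ ((T2.card * (⌊Real.log x / Real.log 2⌋₊ + 1) : ℕ) : ℝ) := by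
          exact_mod_cast e1
      _ = (T2.card : ℝ) * ((⌊Real.log x / Real.log 2⌋₊ + 1 : ℕ) : ℝ) := by push_cast; ring
      _ ≤ _ := mul_le_mul e2 e4 (by positivity) (by positivity)
  have hM0 : 0 ≤ M ∨ T.filter (fun y => ¬ y.2 = 0) = ∅ := by
    by_cases hne : (T.filter fun y => ¬ y.2 = 0).Nonempty
    · obtain ⟨y, -⟩ := hne
      exact Or.inl ((abs_nonneg _).trans (hM y))
    · exact Or.inr (Finset.not_nonempty_iff_eq_empty.1 hne)
  rw [h1, h2, h3, h4, add_sub_cancel_left]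
  rcases isEmpty_or_nonempty (PS S) with he | ⟨⟨p⟩⟩
  · have : (T.filter fun y => ¬ y.2 = 0) = ∅ := by
      refine Finset.eq_empty_of_forall_notMem fun y _ => he.elim y.1
    rw [this, Finset.sum_empty, abs_zero]
    exfalso
    -- there are infinitely many primes
    obtain ⟨q, hq1, hq2⟩ := Nat.exists_infinite_primes ((∑ p ∈ S, (p : ℕ)) + 1)
    refine he.elim ⟨⟨q, hq2⟩, fun h8 => ?_⟩
    have := Finset.single_le_sum (f := fun p : Nat.Primes => (p : ℕ)) (fun _ _ => Nat.zero_le _) h8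
    simp only at this
    have h9 : ((⟨q, hq2⟩ : Nat.Primes) : ℕ) = q := rfl
    omega
  · have hM0 : 0 ≤ M := (abs_nonneg _).trans (hM (p, 0))
    exact h5.trans (mul_le_mul_of_nonneg_left h7 hM0)

/-- powers of `x` and `√x log x` -/
theorem sqrt_log_lt' {a c M : ℝ} (hc : 1 / 2 ≤ c) (hca : c < a) :
    ∀ᶠ x : ℝ in atTop, x ^ c + M * (x ^ (1 / 2 : ℝ) * (Real.log x / Real.log 2 + 1)) ≤ x ^ a := by
  obtain ⟨b, h1, h2⟩ := exists_between hca
  filter_upwards [Pool.Agent.Q18.RS.sqrt_log_lt hc h1, (tendsto_rpow_atTop (sub_pos.2 h2)).eventually_ge_atTop (|M| + 1),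
    eventually_ge_atTop 1] with x hx hx2 hx1
  have hx0 : 0 < x := by linarith
  have hlog2 : 0 < Real.log 2 := Real.log_pos (by norm_num)
  have hlx : 0 ≤ Real.log x := Real.log_nonneg hx1
  have e1 : x ^ a = x ^ (a - b) * x ^ b := by
    rw [← Real.rpow_add hx0]
    congr 1
    ring
  have e2 : 0 ≤ x ^ (1 / 2 : ℝ) * (Real.log x / Real.log 2 + 1) := by positivity
  have e3 : 0 ≤ x ^ c := by positivity
  have e4 := le_abs_self M
  have e5 := abs_nonneg M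
  rw [e1]
  calc x ^ c + M * (x ^ (1 / 2 : ℝ) * (Real.log x / Real.log 2 + 1)) ≤
        (|M| + 1) * (x ^ c + x ^ (1 / 2 : ℝ) * (Real.log x / Real.log 2 + 1)) := by nlinarith
    _ ≤ x ^ (a - b) * x ^ b := mul_le_mul hx2 hx (by positivity) (by positivity)

end Pool.Agent.Q18.LF
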