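import Mathlib
import Pool.Agent.Q18.LF.Sums
import Pool.Agent.Q18.LF.Two
import Pool.Agent.Q18.RS.GL3b

/-! Two Dedekind zeta functions and the difference of the prime ideal counting functions, in sparse windows. -/

set_option autoImplicit false

open Complex MeasureTheory Set Filter Topology NumberField IsDedekindDomain
open Pool.Agent.W189.TP (DS DS_diff DS_norm_le summ_mono)
open Pool.Agent.TH949.TX (AA main_sum qq_fin LL_fin3 exp_LL3 LL_le3)
open Pool.Agent.TH861.GL3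
open Pool.Agent.Q18.RS (ds_neg order_ne_top to_window AA_split hp_summable hp hp_nonneg)

namespace Pool.Agent.Q18.LF

/-! ### abstract versions with one singularity only -/

theorem one_pos' {ι : Type*} [Countable ι] {d L : ι → ℝ} (hL : ∀ i, 0 ≤ L i)
    (habs : ∀ t : ℝ, 1 < t → Summable fun i => |d i| * Real.exp (-(t * L i)))
    {F : ℂ → ℂ} (hF : MeromorphicOn F univ) (hE : ∀ s : ℂ, 1 < s.re → F s = cexp (DS d L s)) {c : ℝ} (hc0 : 0 ≤ c)
    (hreal : ∀ x : ℝ, c < x → meromorphicOrderAt F (x : ℂ) ≤ 0)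
    (hc : ∃ ρ : ℂ, c < ρ.re ∧ meromorphicOrderAt F ρ ≠ 0) :
    ∃ a : ℝ, c < a ∧ 0 < a ∧ ∀ lam : ℝ, 0 < lam → lam ≤ 1 → ∀ᶠ Y : ℝ in atTop, ∃ u : ℝ, |u - Y| ≤ lam * Y ∧
      Real.exp (a * u) ≤ AA d L u := by
  obtain ⟨ρ, h1, h2⟩ := hc
  exact ⟨(c + ρ.re) / 2, by linarith, by linarith, fun lam hlam hlam1 =>
    main_sum hL habs hF hE (by linarith) (fun x hx => hreal x (by linarith)) ⟨ρ, by linarith, h2⟩ hlam hlam1⟩

theorem one_neg' {ι : Type*} [Countable ι] {d L : ι → ℝ} (hL : ∀ i, 0 ≤ L i)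
    (habs : ∀ t : ℝ, 1 < t → Summable fun i => |d i| * Real.exp (-(t * L i)))
    {F : ℂ → ℂ} (hF : MeromorphicOn F univ) (hE : ∀ s : ℂ, 1 < s.re → F s = cexp (DS d L s)) {c : ℝ} (hc0 : 0 ≤ c)
    (hreal : ∀ x : ℝ, c < x → 0 ≤ meromorphicOrderAt F (x : ℂ))
    (hc : ∃ ρ : ℂ, c < ρ.re ∧ meromorphicOrderAt F ρ ≠ 0) :
    ∃ a : ℝ, c < a ∧ 0 < a ∧ ∀ lam : ℝ, 0 < lam → lam ≤ 1 → ∀ᶠ Y : ℝ in atTop, ∃ u : ℝ, |u - Y| ≤ lam * Y ∧
      Real.exp (a * u) ≤ AA (fun i => -d i) L u := by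
  obtain ⟨ρ, h1, h2⟩ := hc
  refine one_pos' (d := fun i => -d i) (F := F⁻¹) hL (fun t ht => ?_) hF.inv (fun s hs => ?_) hc0 (fun x hx => ?_)
    ⟨ρ, h1, ?_⟩
  · simpa only [abs_neg] using habs t ht
  · rw [Pi.inv_apply, hE s hs, ds_neg, Complex.exp_neg]
  · rw [meromorphicOrderAt_inv]
    exact wt_neg_le (order_ne_top hL habs hF hE _) (hreal x hx)
  · rw [meromorphicOrderAt_inv]
    exact wt_neg_ne h2

theorem one_two' {ι : Type*} [Countable ι] {d L : ι → ℝ} (hL : ∀ i, 0 ≤ L i)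
    (habs : ∀ t : ℝ, 1 < t → Summable fun i => |d i| * Real.exp (-(t * L i)))
    {F : ℂ → ℂ} (hF : MeromorphicOn F univ) (hE : ∀ s : ℂ, 1 < s.re → F s = cexp (DS d L s)) {c : ℝ} (hc0 : 0 ≤ c)
    (hc : ∃ ρ : ℂ, c < ρ.re ∧ meromorphicOrderAt F ρ ≠ 0) :
    ∃ a : ℝ, c < a ∧ 0 < a ∧ ∀ lam : ℝ, 0 < lam → lam ≤ 1 → ∀ᶠ Y : ℝ in atTop, ∃ u : ℝ, |u - Y| ≤ lam * Y ∧
      Real.exp (a * u) ≤ |AA d L u| := by
  obtain ⟨ρ, h1, h2⟩ := hc
  exact ⟨(c + ρ.re) / 2, by linarith, by linarith, fun lam hlam hlam1 =>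
    main_two hL habs hF hE (by linarith) ⟨ρ, by linarith, h2⟩ hlam hlam1⟩

/-! ### number fields -/

/-- `∑_{N(𝔭)^k ≤ x} 1 / k` over the prime ideals of `E` and the `k ≥ 1` -/
noncomputable def PiP (E : Type*) [Field E] [NumberField E] (x : ℝ) : ℝ :=
  ∑' y : HeightOneSpectrum (𝓞 E) × ℕ, (open Classical in
    if (Ideal.absNorm y.1.asIdeal : ℝ) ^ (y.2 + 1) ≤ x then 1 / ((y.2 : ℝ) + 1) else 0)

/-- the number of prime ideals of `E` of norm at most `x` -/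
noncomputable def piP (E : Type*) [Field E] [NumberField E] (x : ℝ) : ℕ :=
  Set.ncard {v : HeightOneSpectrum (𝓞 E) | (Ideal.absNorm v.asIdeal : ℝ) ≤ x}

/-- `∑_𝔭 ∑_{k ≥ 1} N(𝔭)^{-ks} / k`, the logarithm of the Euler product of the Dedekind zeta function of `E` -/
noncomputable def logZ (E : Type*) [Field E] [NumberField E] (s : ℂ) : ℂ :=
  ∑' y : HeightOneSpectrum (𝓞 E) × ℕ, ((Ideal.absNorm y.1.asIdeal : ℂ) ^ (-s)) ^ (y.2 + 1) / ((y.2 : ℂ) + 1)

/-- `Z` is the Dedekind zeta function of `E`: meromorphic on `ℂ` (Hecke) and given by the Euler product for `Re s > 1` -/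
structure IsZeta (E : Type*) [Field E] [NumberField E] (Z : ℂ → ℂ) : Prop where
  mero : MeromorphicOn Z univ
  euler : ∀ s : ℂ, 1 < s.re → Z s = cexp (logZ E s)

section one

variable (E : Type*) [Field E] [NumberField E]

set_option linter.unusedSectionVars false

/-- forgetting the empty set of excluded prime ideals -/
def hE : PL (K := E) ∅ × ℕ ≃ HeightOneSpectrum (𝓞 E) × ℕ :=
  (Equiv.subtypeUnivEquiv (by simp)).prodCongr (Equiv.refl ℕ)

/-- the coefficients of `log ζ_E` -/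
noncomputable def dz (y : PL (K := E) ∅ × ℕ) : ℝ := 1 / ((y.2 : ℝ) + 1)

theorem dz_le (y : PL (K := E) ∅ × ℕ) : dz E y ≤ 1 := by
  unfold dz
  rw [div_le_one (by positivity)]
  have : (0 : ℝ) ≤ y.2 := by positivity
  linarith

theorem dz_pos (y : PL (K := E) ∅ × ℕ) : 0 < dz E y := by
  unfold dz
  positivity

theorem LL_nn (y : PL (K := E) ∅ × ℕ) : 0 ≤ LL y := by
  unfold LL
  have : (1 : ℝ) ≤ (qq y.1.1 : ℝ) := by
    have := one_lt_qq y.1.1
    exact_mod_cast this.le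
  exact mul_nonneg (by positivity) (Real.log_nonneg this)

theorem dz_summable {t : ℝ} (ht : 1 < t) : Summable fun y : PL (K := E) ∅ × ℕ => |dz E y| * Real.exp (-(t * LL y)) := by
  have hr0 : 0 < (2 : ℝ) ^ (-t) := by positivity
  have hr1 : (2 : ℝ) ^ (-t) < 1 := Real.rpow_lt_one_of_one_lt_of_neg (by norm_num) (by linarith)
  have h1 : Summable fun k : ℕ => ((2 : ℝ) ^ (-t)) ^ k := summable_geometric_of_lt_one hr0.le hr1
  have h2 := (summable_qq (S := (∅ : Finset (HeightOneSpectrum (𝓞 E)))) (K := E) ht).mul_of_nonneg h1 (fun v => by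
    have := (qq_pos v.1).le
    positivity) (fun k => by positivity)
  refine Summable.of_nonneg_of_le (fun y => by positivity) (fun y => ?_) h2
  obtain ⟨v, k⟩ := y
  have hq : (2 : ℝ) ≤ (qq v.1 : ℝ) := by exact_mod_cast two_le_qq v.1
  have hq0 : (0 : ℝ) < (qq v.1 : ℝ) := qq_pos v.1
  rw [abs_of_pos (dz_pos E _), rexp_LL]
  have e1 : ((qq v.1 : ℝ) ^ (-t)) ^ (k + 1) = (qq v.1 : ℝ) ^ (-t) * ((qq v.1 : ℝ) ^ (-t)) ^ k := by ring
  have e2 : ((qq v.1 : ℝ) ^ (-t)) ^ k ≤ ((2 : ℝ) ^ (-t)) ^ k :=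
    pow_le_pow_left₀ (by positivity) (Real.rpow_le_rpow_of_nonpos (by norm_num) hq (by linarith)) k
  calc dz E (v, k) * ((qq v.1 : ℝ) ^ (-t)) ^ (k + 1) ≤ 1 * ((qq v.1 : ℝ) ^ (-t)) ^ (k + 1) := by
        exact mul_le_mul_of_nonneg_right (dz_le E _) (by positivity)
    _ ≤ _ := by
        rw [one_mul, e1]
        exact mul_le_mul_of_nonneg_left e2 (by positivity)

theorem DS_dz (s : ℂ) : DS (dz E) LL s = logZ E s := by
  unfold DS logZ
  rw [← (hE E).tsum_eq]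
  refine tsum_congr fun y => ?_
  have e4 : (hE E y).2 = y.2 := rfl
  have e5 : (hE E y).1 = y.1.1 := rfl
  have e6 : Complex.exp (-(s * LL y)) = (((qq y.1.1 : ℕ) : ℂ) ^ (-s)) ^ (y.2 + 1) := by
    have hq0 : ((qq y.1.1 : ℕ) : ℂ) ≠ 0 := by
      have := two_le_qq y.1.1
      exact Nat.cast_ne_zero.2 (by omega)
    rw [Complex.cpow_def_of_ne_zero hq0, ← Complex.exp_nat_mul, ← Complex.natCast_log]
    congr 1
    unfold LL
    push_cast
    ring
  rw [e4, e5, e6]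
  unfold dz
  push_cast
  show _ * _ = ((((qq y.1.1 : ℕ) : ℂ) ^ (-s)) ^ (y.2 + 1)) / _
  ring

theorem AA_dz {x : ℝ} (hx : 0 < x) : AA (dz E) LL (Real.log x) = PiP E x := by
  unfold AA PiP
  rw [← (hE E).tsum_eq]
  refine tsum_congr fun y => ?_
  have e4 : (hE E y).2 = y.2 := rfl
  have e5 : (hE E y).1 = y.1.1 := rfl
  simp only [LL_le3 hx, e4, e5]
  rfl

theorem AA_dz_summable (u : ℝ) : Summable fun y : PL (K := E) ∅ × ℕ => (open Classical in
    if LL y ≤ u then dz E y else 0) := by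
  classical
  refine summable_of_hasFiniteSupport ((LL_fin3 (S := (∅ : Finset (HeightOneSpectrum (𝓞 E)))) u).subset fun y hy => ?_)
  by_contra h2
  exact hy (if_neg h2)

theorem fin_ideals (x : ℝ) : {v : HeightOneSpectrum (𝓞 E) | (Ideal.absNorm v.asIdeal : ℝ) ≤ x}.Finite := by
  rcases le_or_gt x 0 with h | h
  · refine Set.Finite.subset Set.finite_empty fun v hv => ?_
    have h1 : (Ideal.absNorm v.asIdeal : ℝ) ≤ x := hv
    have h2 : (0 : ℝ) < (qq v : ℝ) := qq_pos v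
    have h3 : (qq v : ℝ) ≤ x := h1
    linarith
  · have h1 := qq_fin (S := (∅ : Finset (HeightOneSpectrum (𝓞 E)))) (Real.log x)
    refine (h1.image (fun v : PL (K := E) ∅ => v.1)).subset fun v hv => ?_
    have h2 : (qq v : ℝ) ≤ x := hv
    exact ⟨⟨v, by simp⟩, Real.log_le_log (qq_pos v) h2, rfl⟩

theorem pi_eq (x : ℝ) : (∑' v : PL (K := E) ∅, (open Classical in if (qq v.1 : ℝ) ≤ x then dz E (v, 0) else 0)) =
    (piP E x : ℝ) := by
  classical
  have hfin := fin_ideals E x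
  have e0 : ∀ v : PL (K := E) ∅, dz E (v, 0) = 1 := fun v => by
    unfold dz
    simp
  simp only [e0]
  rw [show (∑' v : PL (K := E) ∅, if (qq v.1 : ℝ) ≤ x then (1 : ℝ) else 0) =
    ∑' v : HeightOneSpectrum (𝓞 E), if (qq v : ℝ) ≤ x then (1 : ℝ) else 0 from by
      rw [← (Equiv.subtypeUnivEquiv (α := HeightOneSpectrum (𝓞 E)) (p := fun v => v ∉ (∅ : Finset _)) (by simp)).tsum_eq]
      rfl]
  have h1 : (∑' v : HeightOneSpectrum (𝓞 E), if (qq v : ℝ) ≤ x then (1 : ℝ) else 0) =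
      ∑ v ∈ hfin.toFinset, if (qq v : ℝ) ≤ x then (1 : ℝ) else 0 :=
    tsum_eq_sum fun v hv => if_neg fun h => hv (hfin.mem_toFinset.2 h)
  rw [h1, Finset.sum_congr rfl (fun v hv => if_pos (show (qq v : ℝ) ≤ x from hfin.mem_toFinset.1 hv)),
    Finset.sum_const, nsmul_eq_mul, mul_one]
  unfold piP
  rw [Set.ncard_eq_toFinset_card _ hfin]

/-- the prime powers contribute little -/
theorem PiP_le {σ : ℝ} (hσ : 1 < σ) : ∃ C : ℝ, ∀ x : ℝ, 1 ≤ x → (piP E x : ℝ) ≤ PiP E x ∧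
    PiP E x ≤ piP E x + C * x ^ (σ / 2) := by
  classical
  refine ⟨∑' y, hp (S := (∅ : Finset (HeightOneSpectrum (𝓞 E)))) (K := E) σ y, fun x hx => ⟨?_, ?_⟩⟩
  · have hx0 : 0 < x := by linarith
    rw [← AA_dz E hx0, ← pi_eq]
    unfold AA
    have hg : Function.Injective (fun v : PL (K := E) ∅ => ((v, 0) : PL (K := E) ∅ × ℕ)) :=
      fun a b h => (Prod.mk.inj h).1
    have h1 := (AA_dz_summable E (Real.log x)).comp_injective hg
    refine le_trans (le_of_eq ?_) (tsum_comp_le_tsum_of_inj (AA_dz_summable E (Real.log x)) (fun y => ?_) hg)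
    · refine tsum_congr fun v => ?_
      simp only [Function.comp]
      have h2 : LL ((v, 0) : PL (K := E) ∅ × ℕ) ≤ Real.log x ↔ (qq v.1 : ℝ) ≤ x := by
        rw [LL_le3 hx0]
        simp
      simp only [h2]
    · split_ifs
      · exact (dz_pos E y).le
      · exact le_rfl
  · have hx0 : 0 < x := by linarith
    have h1 := AA_split (S := (∅ : Finset (HeightOneSpectrum (𝓞 E)))) (K := E) (e := dz E) (dz_le E) hσ hx
    rw [AA_dz E hx0, pi_eq] at h1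
    linarith

theorem PL_countable : Countable (PL (K := E) ∅) := by
  have h : (Set.univ : Set (PL (K := E) ∅)) = ⋃ n : ℕ, {v | Real.log (qq v.1) ≤ (n : ℝ)} := by
    ext v
    simp only [Set.mem_univ, Set.mem_iUnion, true_iff]
    obtain ⟨n, hn⟩ := exists_nat_ge (Real.log (qq v.1))
    exact ⟨n, hn⟩
  rw [← Set.countable_univ_iff, h]
  exact Set.countable_iUnion fun n => (qq_fin (S := (∅ : Finset (HeightOneSpectrum (𝓞 E)))) (n : ℝ)).countable

end one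

section two

variable (E F : Type*) [Field E] [NumberField E] [Field F] [NumberField F]

set_option linter.unusedSectionVars false

/-- the coefficients of `log (ζ_E / ζ_F)` -/
noncomputable def dq : (PL (K := E) ∅ × ℕ) ⊕ (PL (K := F) ∅ × ℕ) → ℝ := Sum.elim (dz E) (fun y => -dz F y)

/-- the frequencies -/
noncomputable def LQ : (PL (K := E) ∅ × ℕ) ⊕ (PL (K := F) ∅ × ℕ) → ℝ := Sum.elim LL LL

theorem LQ_nn (y : (PL (K := E) ∅ × ℕ) ⊕ (PL (K := F) ∅ × ℕ)) : 0 ≤ LQ E F y := by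
  rcases y with y | y
  · exact LL_nn E y
  · exact LL_nn F y

theorem dq_summable {t : ℝ} (ht : 1 < t) : Summable fun y => |dq E F y| * Real.exp (-(t * LQ E F y)) := by
  refine Summable.sum _ ((dz_summable E ht).congr fun y => rfl) ((dz_summable F ht).congr fun y => ?_)
  simp only [Function.comp]
  unfold dq LQ
  simp only [Sum.elim_inr, abs_neg]

theorem ds_summable {s : ℂ} (hs : 1 < s.re) : Summable fun y : PL (K := E) ∅ × ℕ =>
    ((dz E y : ℝ) : ℂ) * Complex.exp (-(s * LL y)) := by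
  refine Summable.of_norm ((dz_summable E hs).congr fun y => ?_)
  rw [norm_mul, Complex.norm_real, Real.norm_eq_abs, Complex.norm_exp]
  simp

theorem DS_dq {s : ℂ} (hs : 1 < s.re) : DS (dq E F) (LQ E F) s = logZ E s - logZ F s := by
  rw [← DS_dz E s, ← DS_dz F s]
  unfold DS
  rw [Summable.tsum_sum (f := fun y => ((dq E F y : ℝ) : ℂ) * Complex.exp (-(s * LQ E F y)))
    ((ds_summable E hs).congr fun y => rfl) ((ds_summable F hs).neg.congr fun y => ?_), sub_eq_add_neg, ← tsum_neg]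
  · congr 1
    refine tsum_congr fun y => ?_
    unfold LQ dq
    simp only [Sum.elim_inr]
    push_cast
    ring
  · simp only [Function.comp, LQ, dq, Sum.elim_inr]
    push_cast
    ring

theorem AA_dq {x : ℝ} (hx : 0 < x) : AA (dq E F) (LQ E F) (Real.log x) = PiP E x - PiP F x := by
  classical
  rw [← AA_dz E hx, ← AA_dz F hx]
  unfold AA
  have h1 := AA_dz_summable E (Real.log x)
  have h2 := AA_dz_summable F (Real.log x)
  rw [Summable.tsum_sum (f := fun y => if LQ E F y ≤ Real.log x then dq E F y else 0) (h1.congr fun y => rfl)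
    (h2.neg.congr fun y => ?_), sub_eq_add_neg, ← tsum_neg]
  · congr 1
    refine tsum_congr fun y => ?_
    unfold LQ dq
    simp only [Sum.elim_inr]
    split_ifs <;> simp
  · simp only [Function.comp, LQ, dq, Sum.elim_inr]
    split_ifs <;> simp

instance : Countable ((PL (K := E) ∅ × ℕ) ⊕ (PL (K := F) ∅ × ℕ)) := by
  have h1 := PL_countable E
  have h2 := PL_countable F
  infer_instance

variable {E F}

/-- the quotient of the two zeta functions -/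
theorem quot_eq {Z W : ℂ → ℂ} (hZ : IsZeta E Z) (hW : IsZeta F W) {s : ℂ} (hs : 1 < s.re) :
    (Z * W⁻¹) s = cexp (DS (dq E F) (LQ E F) s) := by
  rw [DS_dq E F hs, Complex.exp_sub, Pi.mul_apply, Pi.inv_apply, hZ.euler s hs, hW.euler s hs, div_eq_mul_inv]

theorem neg_AA (u : ℝ) : AA (fun y => -dq E F y) (LQ E F) u = -AA (dq E F) (LQ E F) u := AA_neg' _ _ u

/-- `Π_F - Π_E` is large in every window if `ζ_E/ζ_F` has no real poles but some singularity of real part `> c` -/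
theorem two_neg {Z W : ℂ → ℂ} (hZ : IsZeta E Z) (hW : IsZeta F W) {c δ : ℝ} (hc0 : 0 ≤ c) (hδ : 0 < δ)
    (hreal : ∀ x : ℝ, c < x → 0 ≤ meromorphicOrderAt (Z * W⁻¹) (x : ℂ))
    (hc : ∃ ρ : ℂ, c < ρ.re ∧ meromorphicOrderAt (Z * W⁻¹) ρ ≠ 0) :
    ∃ a : ℝ, c < a ∧ ∀ᶠ X : ℝ in atTop, ∃ x : ℝ, X ^ (1 - δ) ≤ x ∧ x ≤ X ∧ 1 ≤ x ∧ x ^ a ≤ PiP F x - PiP E x := by
  obtain ⟨a, h1, h2, h3⟩ := one_neg' (LQ_nn E F) (fun t ht => dq_summable E F ht) (hZ.mero.mul hW.mero.inv)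
    (fun s hs => quot_eq hZ hW hs) hc0 hreal hc
  refine ⟨a, h1, ?_⟩
  filter_upwards [to_window h3 hδ (eventually_ge_atTop 1)] with X hX
  obtain ⟨x, h4, h5, h6, h7⟩ := hX
  refine ⟨x, h4, h5, h6, ?_⟩
  rw [neg_AA, AA_dq E F (by linarith)] at h7
  linarith

theorem two_pos {Z W : ℂ → ℂ} (hZ : IsZeta E Z) (hW : IsZeta F W) {c δ : ℝ} (hc0 : 0 ≤ c) (hδ : 0 < δ)
    (hreal : ∀ x : ℝ, c < x → meromorphicOrderAt (Z * W⁻¹) (x : ℂ) ≤ 0)
    (hc : ∃ ρ : ℂ, c < ρ.re ∧ meromorphicOrderAt (Z * W⁻¹) ρ ≠ 0) :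
    ∃ a : ℝ, c < a ∧ ∀ᶠ X : ℝ in atTop, ∃ x : ℝ, X ^ (1 - δ) ≤ x ∧ x ≤ X ∧ 1 ≤ x ∧ x ^ a ≤ PiP E x - PiP F x := by
  obtain ⟨a, h1, h2, h3⟩ := one_pos' (LQ_nn E F) (fun t ht => dq_summable E F ht) (hZ.mero.mul hW.mero.inv)
    (fun s hs => quot_eq hZ hW hs) hc0 hreal hc
  refine ⟨a, h1, ?_⟩
  filter_upwards [to_window h3 hδ (eventually_ge_atTop 1)] with X hX
  obtain ⟨x, h4, h5, h6, h7⟩ := hX
  refine ⟨x, h4, h5, h6, ?_⟩
  rwa [AA_dq E F (by linarith)] at h7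

theorem two_abs {Z W : ℂ → ℂ} (hZ : IsZeta E Z) (hW : IsZeta F W) {c δ : ℝ} (hc0 : 0 ≤ c) (hδ : 0 < δ)
    (hc : ∃ ρ : ℂ, c < ρ.re ∧ meromorphicOrderAt (Z * W⁻¹) ρ ≠ 0) :
    ∃ a : ℝ, c < a ∧ ∀ᶠ X : ℝ in atTop, ∃ x : ℝ, X ^ (1 - δ) ≤ x ∧ x ≤ X ∧ 1 ≤ x ∧ x ^ a ≤ |PiP E x - PiP F x| := by
  obtain ⟨a, h1, h2, h3⟩ := one_two' (LQ_nn E F) (fun t ht => dq_summable E F ht) (hZ.mero.mul hW.mero.inv)
    (fun s hs => quot_eq hZ hW hs) hc0 hc
  refine ⟨a, h1, ?_⟩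
  filter_upwards [to_window (A := fun u => |AA (dq E F) (LQ E F) u|) h3 hδ (eventually_ge_atTop 1)] with X hX
  obtain ⟨x, h4, h5, h6, h7⟩ := hX
  refine ⟨x, h4, h5, h6, ?_⟩
  have h8 : x ^ a ≤ |AA (dq E F) (LQ E F) (Real.log x)| := h7
  rwa [AA_dq E F (by linarith)] at h8

/-- from the prime ideal powers to the prime ideals -/
theorem to_primes {c a δ : ℝ} (hc : 1 / 2 ≤ c) (hca : c < a) (hδ : 0 < δ) (hδ1 : δ < 1)
    (h : ∀ᶠ X : ℝ in atTop, ∃ x : ℝ, X ^ (1 - δ) ≤ x ∧ x ≤ X ∧ 1 ≤ x ∧ x ^ a ≤ PiP E x - PiP F x) :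
    ∀ᶠ X : ℝ in atTop, ∃ x : ℝ, X ^ (1 - δ) ≤ x ∧ x ≤ X ∧ x ^ c ≤ (piP E x : ℝ) - piP F x := by
  obtain ⟨b, hb1, hb2⟩ := exists_between hca
  obtain ⟨C, hC⟩ := PiP_le E (σ := 2 * b) (by linarith)
  have hev : ∀ᶠ x : ℝ in atTop, x ^ c + C * x ^ b ≤ x ^ a := by
    filter_upwards [(tendsto_rpow_atTop (sub_pos.2 hb2)).eventually_ge_atTop (1 + |C|), eventually_ge_atTop 1] with x h1 h2
    have hx0 : 0 < x := by linarith
    have e1 : x ^ a = x ^ (a - b) * x ^ b := by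
      rw [← Real.rpow_add hx0]
      congr 1
      ring
    have e2 : x ^ c ≤ x ^ b := Real.rpow_le_rpow_of_exponent_le h2 hb1.le
    have e3 : 0 < x ^ b := by positivity
    have e4 := le_abs_self C
    rw [e1]
    nlinarith
  obtain ⟨x0, hx0⟩ := eventually_atTop.1 hev
  filter_upwards [h, (tendsto_rpow_atTop (show 0 < 1 - δ by linarith)).eventually_ge_atTop x0] with X hX hX0
  obtain ⟨x, h4, h5, h6, h7⟩ := hX
  refine ⟨x, h4, h5, ?_⟩
  have h8 := hx0 x (hX0.trans h4)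
  obtain ⟨C', hC'⟩ := PiP_le F (σ := 2 * b) (by linarith)
  have h9 := (hC x h6).2
  have h10 := (hC' x h6).1
  rw [show 2 * b / 2 = b by ring] at h9
  linarith

end two

end Pool.Agent.Q18.LF
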