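import Mathlib
import Pool.Agent.Q18.LF.Ded
import Pool.Agent.H541R3.ART.Irr

/-! Artin L-functions and completely split primes. -/

set_option autoImplicit false

open Complex Filter Topology NumberField
open Pool.Agent.H541R3.ART Pool.Agent.H302R2

namespace Pool.Agent.Q18.LF

section grp

variable {G : Type} [Group G] [Finite G]

omit [Finite G] in
theorem triv_mem : (fun _ => 1 : G → ℂ) ∈ Irr G := by
  refine ⟨1, 1, ?_, ?_⟩
  · have h1 : IsSimpleOrder (Submodule ℂ (Fin 1 → ℂ)) := is_simple_module_of_finrank_eq_one (Module.finrank_fin_fun ℂ)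
    have hb : ∀ p : Subrepresentation (1 : Representation ℂ G (Fin 1 → ℂ)), p = ⊥ ∨ p = ⊤ := by
      intro p
      rcases h1.eq_bot_or_eq_top p.toSubmodule with h | h
      · exact Or.inl (Subrepresentation.toSubmodule_injective h)
      · exact Or.inr (Subrepresentation.toSubmodule_injective h)
    refine { exists_pair_ne := ⟨⊥, ⊤, fun h => ?_⟩, eq_bot_or_eq_top := hb }
    have h2 : (⊥ : Submodule ℂ (Fin 1 → ℂ)) = ⊤ := congrArg Subrepresentation.toSubmodule h
    exact bot_ne_top h2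
  · funext g
    unfold Representation.character
    simp

theorem theta_const {θ : G → ℂ} (hθ : IsHeilbronn θ) [Fintype G] (h : (∑ g : G, θ g).re = (θ 1).re * Nat.card G) (g : G) :
    θ g = θ 1 := by
  obtain ⟨r, hr⟩ := hθ.exists_deg
  have h0 : (θ 1).re = r := by rw [hr]; simp
  have h1 : ∀ g ∈ (Finset.univ : Finset G), 0 ≤ (θ 1).re - (θ g).re := fun g _ => by
    have := (Complex.re_le_norm (θ g)).trans (hθ.norm_le g)
    linarith
  have h2 : ∑ g : G, ((θ 1).re - (θ g).re) = 0 := by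
    have e1 : ∑ g : G, (θ g).re = (θ 1).re * Nat.card G := by rw [← h, Complex.re_sum]
    rw [Finset.sum_sub_distrib, e1, Finset.sum_const, Finset.card_univ, nsmul_eq_mul, Nat.card_eq_fintype_card]
    ring
  have h3 := (Finset.sum_eq_zero_iff_of_nonneg h1).1 h2 g (Finset.mem_univ g)
  have h4 : (θ g).re = r := by linarith
  have h5 := hθ.norm_le g
  have h6 : ‖θ g‖ ^ 2 ≤ (r : ℝ) ^ 2 := by
    rw [h0] at h5
    exact pow_le_pow_left₀ (norm_nonneg _) h5 2
  rw [Complex.sq_norm, Complex.normSq_apply, h4] at h6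
  have h7 : (θ g).im = 0 := by
    have : (θ g).im * (θ g).im ≤ 0 := by nlinarith
    nlinarith [mul_self_nonneg (θ g).im, mul_self_eq_zero.1 (le_antisymm this (mul_self_nonneg _))]
  rw [hr]
  exact Complex.ext (by simpa using h4) (by simpa using h7)

theorem theta_sum {s₀ : ℂ} (A : ArtinData G s₀) [Fintype G] :
    ∑ g : G, theta A.ord g = (A.ord (fun _ => 1) : ℂ) * Nat.card G := by
  have h := theta_pair A.ord (triv_mem (G := G))
  simpa using h

/-- the order of the trivial character is at most the order of the zeta function of the top field -/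
theorem ord_one_le {s₀ : ℂ} (A : ArtinData G s₀) {r : ℕ} (hr : (theta A.ord : G → ℂ) 1 = r) :
    A.ord (fun _ => 1) ≤ (r : ℤ) := by
  classical
  have : Fintype G := Fintype.ofFinite G
  have h1 := theta_sum A
  have h2 : (∑ g : G, theta A.ord g).re ≤ ∑ _g : G, (r : ℝ) := by
    rw [Complex.re_sum]
    refine Finset.sum_le_sum fun g _ => ?_
    have h3 := A.isHeilbronn.norm_le g
    rw [hr] at h3
    exact (Complex.re_le_norm _).trans (by simpa using h3)
  rw [h1, Finset.sum_const, Finset.card_univ, nsmul_eq_mul, Nat.card_eq_fintype_card] at h2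
  have h4 : ((A.ord (fun _ => 1) : ℂ) * (Fintype.card G : ℂ)).re = (A.ord (fun _ => 1) : ℝ) * Fintype.card G := by
    simp
  rw [h4] at h2
  have h5 : (0 : ℝ) < Fintype.card G := by exact_mod_cast Fintype.card_pos
  have h6 : (A.ord (fun _ => 1) : ℝ) ≤ r := by
    by_contra h7
    push Not at h7
    nlinarith
  exact_mod_cast h6

/-- equality forces all other orders to vanish -/
theorem ord_zero {s₀ : ℂ} (A : ArtinData G s₀) {r : ℕ} (hr : (theta A.ord : G → ℂ) 1 = r)
    (h : A.ord (fun _ => 1) = (r : ℤ)) {χ : G → ℂ} (hχ : χ ∈ Irr G) (hne : χ ≠ fun _ => 1) : A.ord χ = 0 := by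
  classical
  have : Fintype G := Fintype.ofFinite G
  have h1 := theta_sum A
  have hc : ∀ g : G, theta A.ord g = theta A.ord 1 := by
    refine theta_const A.isHeilbronn ?_
    rw [h1, hr, h]
    simp
  have h2 := theta_pair A.ord hχ
  rw [Finset.sum_congr rfl (fun g _ => by rw [hc g])] at h2
  have h3 := pair_ne (triv_mem (G := G)) hχ hne.symm
  rw [← Finset.mul_sum] at h2
  simp only [one_mul] at h3
  rw [h3, mul_zero] at h2
  have hG : (Nat.card G : ℂ) ≠ 0 := by exact_mod_cast Nat.card_pos.ne'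
  have h4 := (mul_eq_zero.1 h2.symm).resolve_right hG
  exact_mod_cast h4

end grp

/-- What is used of the Artin L-functions `L χ`, `χ` an irreducible character of `G = Gal(E/K)`: `ZE` and `ZK` are the
Dedekind zeta functions of `E` and `K`, with simple poles at `1`, and near every point `s₀ ≠ 1` there are Hecke L-functions
`Lin H ψ` of the subfields of `E` with the properties in `ArtinData`, where `Lin ⊥ 1 = ζ_E`, and the Artin L-function of the
trivial character is `ζ_K`. -/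
structure ArtinFam (K E : Type) [Field K] [NumberField K] [Field E] [NumberField E] [Algebra K E]
    (ZE ZK : ℂ → ℂ) (L : ((E ≃ₐ[K] E) → ℂ) → ℂ → ℂ) : Prop where
  top : IsZeta E ZE
  bot : IsZeta K ZK
  pole_top : meromorphicOrderAt ZE 1 = -1
  pole_bot : meromorphicOrderAt ZK 1 = -1
  artin : ∀ s₀ : ℂ, s₀ ≠ 1 → ∃ A : ArtinData (E ≃ₐ[K] E) s₀, A.L = L ∧ A.Lin ⊥ 1 =ᶠ[𝓝[≠] s₀] ZE ∧
    L (fun _ => 1) =ᶠ[𝓝[≠] s₀] ZK

section fam

variable {K E : Type} [Field K] [NumberField K] [Field E] [NumberField E] [Algebra K E]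
  {ZE ZK : ℂ → ℂ} {L : ((E ≃ₐ[K] E) → ℂ) → ℂ → ℂ}

/-- local analysis: the order of `ζ_E / ζ_K` is nonnegative, and if it is zero then the nontrivial `L χ` have order zero -/
theorem ArtinFam.loc (h : ArtinFam K E ZE ZK L) {s₀ : ℂ} (hs : s₀ ≠ 1) :
    0 ≤ meromorphicOrderAt (ZE * ZK⁻¹) s₀ ∧ (meromorphicOrderAt (ZE * ZK⁻¹) s₀ = 0 →
      meromorphicOrderAt ZE s₀ = meromorphicOrderAt ZK s₀ ∧
      ∀ χ ∈ Irr (E ≃ₐ[K] E), (χ ≠ fun _ => 1) → meromorphicOrderAt (L χ) s₀ = 0) := by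
  obtain ⟨A, hA, hE, hK⟩ := h.artin s₀ hs
  have h1 : meromorphicOrderAt (A.Lin ⊥ 1) s₀ = meromorphicOrderAt ZE s₀ := meromorphicOrderAt_congr hE
  have h2 : meromorphicOrderAt (A.L (fun _ => 1)) s₀ = meromorphicOrderAt ZK s₀ := by
    rw [hA]
    exact meromorphicOrderAt_congr hK
  have ht := (triv_mem (G := (E ≃ₐ[K] E)))
  rw [← A.coe_ord ht] at h2
  obtain ⟨r, hr⟩ := A.isHeilbronn.exists_deg
  have h3 : meromorphicOrderAt ZE s₀ = (r : WithTop ℤ) := by
    have h4 := A.hecke ⊥ 1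
    classical
    choose! m hm using fun χ (hχ : χ ∈ Irr (E ≃ₐ[K] E)) => exists_mult hχ (⊥ : Subgroup (E ≃ₐ[K] E)) 1
    have h5 := A.order_Lin ⊥ 1 m hm
    rw [h5] at h4
    obtain ⟨k, hk⟩ := Int.eq_ofNat_of_zero_le (show 0 ≤ ∑ χ ∈ irrF (E ≃ₐ[K] E), (m χ : ℤ) * A.ord χ by exact_mod_cast h4)
    have h6 : meromorphicOrderAt (A.Lin ⊥ 1) s₀ = (k : WithTop ℤ) := by
      rw [h5, hk]
      rfl
    have h7 := A.theta_one h6
    rw [hr] at h7
    have h8 : r = k := by exact_mod_cast h7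
    rw [← h1, h6, h8]
  have h9 := ord_one_le A hr
  have h10 : meromorphicOrderAt (ZE * ZK⁻¹) s₀ = (((r : ℤ) - A.ord (fun _ => 1) : ℤ) : WithTop ℤ) := by
    rw [meromorphicOrderAt_mul (h.top.mero s₀ (Set.mem_univ _)) (h.bot.mero s₀ (Set.mem_univ _)).inv, meromorphicOrderAt_inv, h3,
      ← h2]
    rfl
  refine ⟨?_, fun h0 => ?_⟩
  · rw [h10]
    have : 0 ≤ (r : ℤ) - A.ord (fun _ => 1) := by linarith
    exact_mod_cast this
  · rw [h10] at h0
    have h11 : (r : ℤ) - A.ord (fun _ => 1) = 0 := by exact_mod_cast h0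
    have h12 : A.ord (fun _ => 1) = (r : ℤ) := by linarith
    refine ⟨?_, fun χ hχ hne => ?_⟩
    · rw [h3, ← h2, h12]
      rfl
    · rw [← hA, ← A.coe_ord hχ, ord_zero A hr h12 hχ hne]
      rfl

theorem ArtinFam.real (h : ArtinFam K E ZE ZK L) (s₀ : ℂ) : 0 ≤ meromorphicOrderAt (ZE * ZK⁻¹) s₀ := by
  by_cases hs : s₀ = 1
  · rw [hs, meromorphicOrderAt_mul (h.top.mero 1 (Set.mem_univ _)) (h.bot.mero 1 (Set.mem_univ _)).inv, meromorphicOrderAt_inv,
      h.pole_top, h.pole_bot]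
    exact le_of_eq rfl
  · exact (h.loc hs).1

end fam

end Pool.Agent.Q18.LF
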