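import Mathlib
import Pool.Agent.Q18.LF.Split

/-! The zeta functions of the intermediate fields. -/

set_option autoImplicit false

open Complex Filter Topology NumberField
open Pool.Agent.H541R3.ART Pool.Agent.H302R2

namespace Pool.Agent.Q18.LF

variable {K E : Type} [Field K] [NumberField K] [Field E] [NumberField E] [Algebra K E]
  {ZE ZK : ℂ → ℂ} {L : ((E ≃ₐ[K] E) → ℂ) → ℂ → ℂ}

/-- if `ζ_E/ζ_K` has order zero at `s₀`, then the zeta functions of all intermediate fields have the same order -/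
theorem ArtinFam.sub (h : ArtinFam K E ZE ZK L) {s₀ : ℂ} (hs : s₀ ≠ 1) (h0 : meromorphicOrderAt (ZE * ZK⁻¹) s₀ = 0)
    (A : ArtinData (E ≃ₐ[K] E) s₀) (hA : A.L = L) (H : Subgroup (E ≃ₐ[K] E)) :
    meromorphicOrderAt (A.Lin H 1) s₀ = meromorphicOrderAt ZK s₀ := by
  classical
  obtain ⟨-, h2⟩ := (h.loc hs).2 h0
  obtain ⟨B, hB, -, hK⟩ := h.artin s₀ hs
  have ht := (triv_mem (G := (E ≃ₐ[K] E)))
  have h3 : ((A.ord (fun _ => 1) : ℤ) : WithTop ℤ) = meromorphicOrderAt ZK s₀ := by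
    rw [A.coe_ord ht, hA]
    exact meromorphicOrderAt_congr hK
  choose! m hm using fun χ (hχ : χ ∈ Irr (E ≃ₐ[K] E)) => exists_mult hχ H 1
  rw [A.order_Lin H 1 m hm, Finset.sum_eq_single (fun _ => 1), ← h3]
  · have h4 := hm _ ht
    have : Fintype H := Fintype.ofFinite H
    rw [finsum_eq_sum_of_fintype] at h4
    simp only [MonoidHom.one_apply, inv_one, Units.val_one, mul_one, Finset.sum_const, Finset.card_univ, nsmul_eq_mul] at h4
    have hH : (Nat.card H : ℂ) ≠ 0 := by exact_mod_cast Nat.card_pos.ne'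
    have h5 : ((m fun _ => 1 : ℕ) : ℂ) * (Nat.card H : ℂ) = 1 * (Nat.card H : ℂ) := by
      rw [← h4, Nat.card_eq_fintype_card, one_mul]
    have h6 := mul_right_cancel₀ hH h5
    have h7 : m (fun _ => 1) = 1 := by exact_mod_cast h6
    rw [h7]
    norm_num
  · intro χ hχ hne
    have h4 := h2 χ (mem_irrF.1 hχ) hne
    rw [← hA, ← A.coe_ord (mem_irrF.1 hχ)] at h4
    have h5 : A.ord χ = 0 := by exact_mod_cast h4
    rw [h5, mul_zero]
  · intro h4
    exact absurd (mem_irrF.2 ht) h4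

/-- from the prime ideal powers to the prime ideals, two-sided -/
theorem to_primes_abs (E F : Type*) [Field E] [NumberField E] [Field F] [NumberField F] {c a δ : ℝ} (hc : 1 / 2 ≤ c)
    (hca : c < a) (hδ1 : δ < 1)
    (h : ∀ᶠ X : ℝ in atTop, ∃ x : ℝ, X ^ (1 - δ) ≤ x ∧ x ≤ X ∧ 1 ≤ x ∧ x ^ a ≤ |PiP E x - PiP F x|) :
    ∀ᶠ X : ℝ in atTop, ∃ x : ℝ, X ^ (1 - δ) ≤ x ∧ x ≤ X ∧ x ^ c ≤ |(piP E x : ℝ) - piP F x| := by
  obtain ⟨b, hb1, hb2⟩ := exists_between hca
  obtain ⟨C, hC⟩ := PiP_le E (σ := 2 * b) (by linarith)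
  obtain ⟨C', hC'⟩ := PiP_le F (σ := 2 * b) (by linarith)
  have hev : ∀ᶠ x : ℝ in atTop, x ^ c + (|C| + |C'|) * x ^ b ≤ x ^ a := by
    filter_upwards [(tendsto_rpow_atTop (sub_pos.2 hb2)).eventually_ge_atTop (1 + (|C| + |C'|)), eventually_ge_atTop 1]
      with x h1 h2
    have hx0 : 0 < x := by linarith
    have e1 : x ^ a = x ^ (a - b) * x ^ b := by
      rw [← Real.rpow_add hx0]
      congr 1
      ring
    have e2 : x ^ c ≤ x ^ b := Real.rpow_le_rpow_of_exponent_le h2 hb1.le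
    have e3 : 0 < x ^ b := by positivity
    rw [e1]
    nlinarith
  obtain ⟨x0, hx0⟩ := eventually_atTop.1 hev
  filter_upwards [h, (tendsto_rpow_atTop (show 0 < 1 - δ by linarith)).eventually_ge_atTop x0] with X hX hX0
  obtain ⟨x, h4, h5, h6, h7⟩ := hX
  refine ⟨x, h4, h5, ?_⟩
  have h8 := hx0 x (hX0.trans h4)
  obtain ⟨h9, h10⟩ := hC x h6
  obtain ⟨h11, h12⟩ := hC' x h6
  rw [show 2 * b / 2 = b by ring] at h10 h12
  have e3 : 0 < x ^ b := by positivity
  have e4 : C * x ^ b ≤ |C| * x ^ b := mul_le_mul_of_nonneg_right (le_abs_self C) e3.le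
  have e5 : C' * x ^ b ≤ |C'| * x ^ b := mul_le_mul_of_nonneg_right (le_abs_self C') e3.le
  have e6 : 0 ≤ |C| * x ^ b := by positivity
  have e7 : 0 ≤ |C'| * x ^ b := by positivity
  rcases abs_cases (PiP E x - PiP F x) with ⟨h13, -⟩ | ⟨h13, -⟩
  · rw [h13] at h7
    have := le_abs_self ((piP E x : ℝ) - piP F x)
    nlinarith
  · rw [h13] at h7
    have := neg_abs_le ((piP E x : ℝ) - piP F x)
    nlinarith

end Pool.Agent.Q18.LF
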